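import Pool.Agent.Work.MP_baf0bc_nt.Zh.Peel

/-! The block inequality for the collision norm on a finite abelian group. -/

set_option autoImplicit false

open Finset Real

namespace Pool.Agent.Work.MP_baf0bc_nt.Zh

open Pool.Agent.Work.MP_baf0bc_nt.Ne

variable {G : Type} [AddCommGroup G] [Fintype G] [DecidableEq G]

def Nn (p : A G) : Prop := ∀ x, 0 ≤ p.coeff x

def Pos (p : A G) : Prop := Nn p ∧ ∃ x, 0 < p.coeff x

noncomputable def N2 (p : A G) : ℝ := ∑ x, p.coeff x ^ 2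

def Rf (p q : A G) : Prop := ∀ x, q.coeff x = p.coeff (-x)

omit [DecidableEq G] in
theorem Nn.mul {p q : A G} (hp : Nn p) (hq : Nn q) : Nn (p * q) := fun x => by
  rw [cm]
  exact sum_nonneg fun y _ => mul_nonneg (hp _) (hq _)

omit [DecidableEq G] in
theorem Nn.le {p q : A G} (hp : Nn p) (hq : Nn q) (x y : G) :
    p.coeff x * q.coeff y ≤ (p * q).coeff (x + y) := by
  rw [cm]
  have := single_le_sum (f := fun z => p.coeff z * q.coeff (-z + (x + y)))
    (fun z _ => mul_nonneg (hp _) (hq _)) (mem_univ x)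
  simpa using this

omit [DecidableEq G] in
theorem Pos.mul {p q : A G} (hp : Pos p) (hq : Pos q) : Pos (p * q) := by
  obtain ⟨x, hx⟩ := hp.2
  obtain ⟨y, hy⟩ := hq.2
  exact ⟨hp.1.mul hq.1, _, (mul_pos hx hy).trans_le (hp.1.le hq.1 x y)⟩

omit [AddCommGroup G] [DecidableEq G] in
theorem pos_pr {p : A G} (hp : Pr p) : Pos p := by
  obtain ⟨x, -, hx⟩ := exists_ne_zero_of_sum_ne_zero (hp.2.trans_ne one_ne_zero)
  exact ⟨hp.1, x, lt_of_le_of_ne (hp.1 x) hx.symm⟩

theorem pos_prod {ι : Type} (s : Finset ι) (f : ι → A G) (h : ∀ i ∈ s, Pos (f i)) :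
    Pos (∏ i ∈ s, f i) :=
  prod_induction f Pos (fun _ _ => Pos.mul) (pos_pr (pr_e 0)) h

theorem le_prod {ι : Type} (s : Finset ι) (f : ι → A G) (x : ι → G) (c : ι → ℝ)
    (h : ∀ i ∈ s, Pos (f i) ∧ 0 ≤ c i ∧ c i ≤ (f i).coeff (x i)) :
    ∏ i ∈ s, c i ≤ (∏ i ∈ s, f i).coeff (∑ i ∈ s, x i) := by
  classical
  induction s using Finset.induction_on with
  | empty => simp [← e_zero, e_coeff]
  | insert i s hi ih =>
    rw [prod_insert hi, prod_insert hi, sum_insert hi]
    have h1 := h i (mem_insert_self _ _)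
    have h2 := fun j hj => h j (mem_insert_of_mem hj)
    exact (mul_le_mul h1.2.2 (ih h2) (prod_nonneg fun j hj => (h2 j hj).2.1) (h1.1.1 _)).trans
      (h1.1.1.le (pos_prod s f fun j hj => (h2 j hj).1).1 _ _)

omit [AddCommGroup G] [DecidableEq G] in
theorem Pos.n2 {p : A G} (hp : Pos p) : 0 < N2 p := by
  obtain ⟨x, hx⟩ := hp.2
  exact (pow_pos hx 2).trans_le (single_le_sum (f := fun x => p.coeff x ^ 2)
    (fun _ _ => sq_nonneg _) (mem_univ x))

omit [DecidableEq G] in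
theorem sum_ng (f : G → ℝ) : ∑ x, f (-x) = ∑ x, f x := Equiv.sum_comp (Equiv.neg G) f

omit [DecidableEq G] in
theorem cs0 (p q : A G) : (p * q).coeff 0 ^ 2 ≤ N2 p * N2 q := by
  rw [cm, N2, N2, ← sum_ng fun x => q.coeff x ^ 2]
  simpa using sum_mul_sq_le_sq_mul_sq univ (fun x => p.coeff x) fun x => q.coeff (-x)

omit [DecidableEq G] in
theorem Rf.mul {p p' q q' : A G} (hp : Rf p p') (hq : Rf q q') : Rf (p * q) (p' * q') := fun x => by
  rw [cm, cm, ← sum_ng]
  refine sum_congr rfl fun y _ => ?_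
  rw [hp, hq]
  congr 2 <;> abel

omit [Fintype G] [DecidableEq G] in
theorem Rf.symm {p q : A G} (h : Rf p q) : Rf q p := fun x => by rw [h, neg_neg]

omit [Fintype G] in
theorem rf_e (g : G) : Rf (e g) (e (-g)) := fun x => by
  simp only [e_coeff, neg_eq_iff_eq_neg]

theorem rf_prod {ι : Type} (s : Finset ι) (f f' : ι → A G) (h : ∀ i, Rf (f i) (f' i)) :
    Rf (∏ i ∈ s, f i) (∏ i ∈ s, f' i) := by
  classical
  induction s using Finset.induction_on with
  | empty => simpa [e_zero] using rf_e (0 : G)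
  | insert i s hi ih =>
    rw [prod_insert hi, prod_insert hi]
    exact (h i).mul ih

omit [Fintype G] in
theorem rf_dig (q : ℕ) (g : G) : Rf (dig q g) (dig q (-g)) := fun x => by
  simp only [Sh.dig_coeff, smul_neg, neg_eq_iff_eq_neg]

theorem rf_TT (n : ℕ) : ∀ (s : Fin 9) (h : G), Rf (TT n s h) (TT n s (-h)) := by
  induction n with
  | zero =>
    intro s h
    simp only [TT]
    split_ifs
    · intro x; simp
    · simpa [e_zero] using rf_e (0 : G)
  | succ n ih =>
    intro s h x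
    have h1 := ih (d0 s) (3 • h) x
    have h2 := ((ih (d1 s) (3 • h)).mul (rf_e (2 ^ n • h))) x
    simp only [TT, smul_neg, AddMonoidAlgebra.coeff_add, Finsupp.add_apply, h1, h2]

omit [DecidableEq G] in
theorem Rf.n2 {p q : A G} (h : Rf p q) : N2 q = N2 p := by
  simp only [N2, h _]
  exact sum_ng fun x => p.coeff x ^ 2

omit [DecidableEq G] in
theorem Rf.eq {p q : A G} (h : Rf p q) : N2 p = (p * q).coeff 0 := by
  simp [cm, N2, h _, sq]

omit [DecidableEq G] in
theorem n2_mono (p : A G) {z : A G} (hz : Pr z) : N2 (p * z) ≤ N2 p := by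
  rw [mul_comm]
  calc _ ≤ ∑ w, ∑ y, z.coeff y * p.coeff (-y + w) ^ 2 := sum_le_sum fun w _ => by
        rw [cm]
        exact Real.pow_arith_mean_le_arith_mean_pow_of_even _ _ _ (fun y _ => hz.1 y) hz.2 even_two
    _ = _ := by
        rw [sum_comm]
        simp only [← mul_sum, sum_sh fun x => p.coeff x ^ 2, ← sum_mul, hz.2, one_mul, N2]

theorem nn_TT (n : ℕ) : ∀ (s : Fin 9) (h : G), Nn (TT n s h) := by
  induction n with
  | zero =>
    intro s h
    simp only [TT]
    split_ifs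
    · intro x; simp
    · exact (pr_e 0).1
  | succ n ih =>
    intro s h x
    simp only [TT, AddMonoidAlgebra.coeff_add, Finsupp.add_apply]
    exact add_nonneg (ih _ _ x) ((ih _ _).mul (pr_e _).1 x)

theorem pos_TT (n : ℕ) (h : G) : Pos (TT n 0 h) := by
  refine ⟨nn_TT n 0 h, 0, ?_⟩
  induction n generalizing h with
  | zero => simp [TT, ← e_zero, e_coeff]
  | succ n ih =>
    simp only [TT, AddMonoidAlgebra.coeff_add, Finsupp.add_apply]
    exact add_pos_of_pos_of_nonneg (ih _) ((nn_TT _ _ _).mul (pr_e _).1 0)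

def cc : ℕ → ℕ
  | 0 => 0
  | n + 1 => 3 * cc n + 2 ^ n

omit [Fintype G] [DecidableEq G] in
theorem TC_eq (n : ℕ) : ∀ (s : Fin 9) (h : G), TC n s h = TT n s (-h) * e (cc n • h) := by
  induction n with
  | zero => intro s h; simp [TC, TT, cc, e_zero]
  | succ n ih =>
    intro s h
    have : e (-(2 ^ n • h)) * e (2 ^ n • h) = 1 := by rw [← e_add, neg_add_cancel, e_zero]
    rw [TC, TT, ih, ih, cc, add_smul, e_add, smul_smul, mul_comm (cc n), smul_neg, smul_neg]
    linear_combination -(TT n (d1 s) (-(3 • h)) * e ((3 * cc n) • h)) * this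

noncomputable def RR (n : ℕ) (h : G) : A G := TT n 0 h * TT n 0 (-h)

theorem rf_RR (n : ℕ) (h : G) : Rf (RR n h) (RR n h) := by
  have := (rf_TT n 0 h).mul (rf_TT n 0 h).symm
  rwa [mul_comm (TT n 0 (-h))] at this

theorem n2_RR (n : ℕ) (h : G) (p : A G) : ∃ c : G, N2 (p * RR n h) =
    ∑ y, p.coeff (-y) * ev (P4 n h (0, 0, 0, 0)) fun w => p.coeff (-(y + c + w)) := by
  refine ⟨-(cc n • h + cc n • h), ?_⟩
  have h1 : p * RR n h * RR n h = P4 n h (0, 0, 0, 0) * (e (-(cc n • h + cc n • h)) * p) := by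
    have : e (cc n • h) * e (cc n • h) * e (-(cc n • h + cc n • h)) = 1 := by
      rw [← e_add, ← e_add, add_neg_cancel, e_zero]
    simp only [P4, RR, TC_eq]
    linear_combination -(p * TT n 0 h ^ 2 * TT n 0 (-h) ^ 2) * this
  calc _ = ∑ w, ∑ y, p.coeff y * ((p * RR n h).coeff w * (RR n h).coeff (-w + y)) := by
        refine sum_congr rfl fun w _ => ?_
        rw [sq]
        nth_rewrite 2 [cm]
        rw [mul_sum]
        refine sum_congr rfl fun y _ => ?_
        rw [rf_RR n h (-w + y), neg_add_rev, neg_neg]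
        ring
    _ = ∑ y, p.coeff y * (p * RR n h * RR n h).coeff y := by
        rw [sum_comm]
        simp only [← mul_sum, ← cm]
    _ = _ := by
        rw [h1, ← sum_ng]
        refine sum_congr rfl fun y _ => ?_
        rw [cm, ev]
        congr 1
        refine sum_congr rfl fun w _ => ?_
        simp only [cm, e_coeff, ite_mul, one_mul, zero_mul, sum_ite_eq, mem_univ, if_true]
        congr 2
        abel

theorem blk (n : ℕ) (h : G) {p : A G} (hp : Pos p) : log (N2 (p * RR n h)) ≤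
    (16 + n * log (143 / 25)) + 2 / 3 * log (N2 (p * dig (3 * MM n) h)) + 1 / 3 * log (N2 p) := by
  obtain ⟨c, hc⟩ := n2_RR n h p
  have u1 : 1 ≤ 2 ^ n := Nat.one_le_two_pow
  have u2 : 2 ^ n ≤ 3 ^ n := Nat.pow_le_pow_left (by norm_num) n
  have u3 := MM_add n
  obtain ⟨R, hR⟩ : ∃ R, R = 3 * MM n := ⟨_, rfl⟩
  have N0 : (0 : ℝ) < 3 ^ n := by positivity
  have R0 : 0 < R := by omega
  have R1 : (R : ℝ) ≤ 9 * 3 ^ n := by exact_mod_cast (by omega : R ≤ 9 * 3 ^ n)
  have R2 : (0 : ℝ) < R := Nat.cast_pos.2 R0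
  obtain ⟨f, f0, hf⟩ : ∃ f : G → ℝ, (∀ g, 0 ≤ f g) ∧ ∀ g, f g ^ 5 = p.coeff (-g) :=
    ⟨fun g => p.coeff (-g) ^ ((5 : ℕ)⁻¹ : ℝ), fun g => rpow_nonneg (hp.1 _) _,
      fun g => rpow_inv_natCast_pow (hp.1 _) (by norm_num)⟩
  choose a a0 ha using fun b : G => root6 (S := ∑ t ∈ range R, f (b + t • h) ^ 6)
    (sum_nonneg fun x _ => pow_nonneg (f0 _) 6) N0
  have tr : ∀ (F : G → ℝ) (K : ℕ), ∑ b, ∑ x ∈ range K, F (b + x • h) = K * ∑ b, F b := by
    intro F K
    rw [sum_comm]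
    simp only [Sh.sum_tr, sum_const, card_range, nsmul_eq_mul]
  have X0 := (hp.mul (pos_pr (pr_dig R0 h))).n2
  have Y0 := hp.n2
  have W0 := (hp.mul ((pos_TT n h).mul (pos_TT n (-h)))).n2
  obtain ⟨κ, κ0, hκ⟩ := root6 Y0.le X0
  have κ1 : 0 < κ := lt_of_le_of_ne κ0 fun e => by
    rw [← e] at hκ
    linarith
  have k1 := sum_le_sum fun b (_ : b ∈ univ) => peel n h (0, 0, 0, 0) (fun x => f (b + x • h))
    (fun g => f (b + c + g)) (a b) (a (b + c)) (fun x => f0 _) (fun g => f0 _) (a0 _) (a0 _)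
    (by
      rw [← ha]
      exact sum_le_sum_of_subset_of_nonneg (range_subset_range.2 (by omega))
        fun t _ _ => pow_nonneg (f0 _) 6) (by rw [← ha, hR])
  have e1 : ∀ b x w : G, b + c + (x + w) = b + x + c + w := fun b x w => by abel
  simp only [e1, hf, uu_zero] at k1
  rw [tr fun y => p.coeff (-y) * ev (P4 n h (0, 0, 0, 0)) fun w => p.coeff (-(y + c + w)),
    ← hc] at k1
  have k2 : ∑ b, a b ^ 5 * a (b + c) ^ 5 ≤ ∑ b, a b ^ 10 := by
    have := sum_le_sum fun b (_ : b ∈ univ) => (show 2 * (a b ^ 5 * a (b + c) ^ 5) ≤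
      a b ^ 10 + a (b + c) ^ 10 by linarith [sq_nonneg (a b ^ 5 - a (b + c) ^ 5)])
    rw [sum_add_distrib, Sh.sum_tr fun b => a b ^ 10, ← mul_sum] at this
    linarith
  have k3 : ∀ b, 3 * κ ^ 4 * (3 ^ n) ^ 2 * a b ^ 10 ≤
      2 * κ ^ 6 * R ^ 2 * (p * dig R h).coeff (-b) ^ 2 +
        3 ^ n * ∑ t ∈ range R, p.coeff (-(b + t • h)) ^ 2 := fun b => by
    have s1 : ∑ t ∈ range R, f (b + t • h) ^ 5 = R * (p * dig R h).coeff (-b) := by
      rw [mul_comm p, cm, Sh.ex_dig _ _ fun y => p.coeff (-y + -b), ← mul_assoc,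
        mul_one_div_cancel R2.ne', one_mul]
      exact sum_congr rfl fun x _ => by rw [hf, neg_add_rev]
    have s2 := sum_le_sum fun t (_ : t ∈ range R) => (show
      5 * (κ * a b) ^ 4 * f (b + t • h) ^ 6 ≤ 4 * (κ * a b) ^ 5 * f (b + t • h) ^ 5 +
        p.coeff (-(b + t • h)) ^ 2 by
      rw [← hf]
      have x0 := mul_nonneg κ0 (a0 b)
      have y0 := f0 (b + t • h)
      generalize κ * a b = x at *
      generalize f (b + t • h) = y at *
      have : 0 ≤ y ^ 5 * ((y - x) ^ 2 * (y ^ 3 + 2 * x * y ^ 2 + 3 * x ^ 2 * y + 4 * x ^ 3)) := by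
        positivity
      linarith)
    rw [sum_add_distrib, ← mul_sum, ← mul_sum, ha, s1] at s2
    linarith [mul_le_mul_of_nonneg_left s2 N0.le,
      sq_nonneg (κ ^ 2 * a b ^ 5 * 3 ^ n - κ ^ 3 * (R * (p * dig R h).coeff (-b)))]
  have k4 := sum_le_sum fun b (_ : b ∈ univ) => k3 b
  rw [sum_add_distrib, ← mul_sum, ← mul_sum, ← mul_sum, tr fun g => p.coeff (-g) ^ 2,
    sum_ng fun g => p.coeff g ^ 2, sum_ng fun g => (p * dig R h).coeff g ^ 2] at k4
  change _ ≤ _ * N2 (p * dig R h) + _ * (_ * N2 p) at k4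
  simp only [mul_assoc ((3 : ℝ) ^ n * (143 / 25) ^ n), ← mul_sum, ← sum_mul] at k1
  rw [← hR]
  change 0 < N2 (p * RR n h) at W0
  generalize N2 (p * RR n h) = W at *
  generalize N2 (p * dig R h) = X at *
  generalize N2 p = Y at *
  generalize ∑ b, a b ^ 10 = S at *
  have k5 : κ ^ 4 * S ≤ 57 * Y := by
    refine le_of_mul_le_mul_left ?_ (show (0 : ℝ) < (3 ^ n) ^ 2 by positivity)
    have := mul_le_mul_of_nonneg_right (pow_le_pow_left₀ R2.le R1 2) Y0.le
    have := mul_le_mul_of_nonneg_left (mul_le_mul_of_nonneg_right R1 Y0.le) N0.le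
    have : κ ^ 6 * R ^ 2 * X = R ^ 2 * Y := by rw [hκ]; ring
    linarith
  have L0 : (0 : ℝ) < (143 / 25) ^ n := by positivity
  have k6 : W ≤ (143 / 25) ^ n * (S * 60001) := by
    refine le_of_mul_le_mul_left ?_ N0
    push_cast at k1
    linarith [mul_le_mul_of_nonneg_left k2 (mul_pos N0 L0).le]
  have k7 : W * κ ^ 4 ≤ exp 16 * (143 / 25) ^ n * Y := by
    have e16 : (57 * 60001 : ℝ) ≤ exp 16 := by
      rw [show (16 : ℝ) = (16 : ℕ) * 1 by norm_num, exp_nat_mul]
      exact le_trans (by norm_num) (pow_le_pow_left₀ (by norm_num) exp_one_gt_d9.le 16)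
    linarith [mul_le_mul_of_nonneg_right k6 (pow_pos κ1 4).le, mul_le_mul_of_nonneg_left k5 L0.le,
      mul_le_mul_of_nonneg_right e16 (mul_pos L0 Y0).le]
  have k8 := log_le_log (by positivity) k7
  have k9 := congrArg log hκ
  rw [log_mul X0.ne' (by positivity), log_pow] at k9
  rw [log_mul W0.ne' (by positivity), log_mul (by positivity) Y0.ne',
    log_mul (by positivity) L0.ne', log_exp, log_pow, log_pow] at k8
  push_cast at k8 k9
  linarith

theorem blocks (Y Z : ℕ → A G) (hY : ∀ k, Pos (Y k)) (hZ : ∀ k, Pos (Z k)) (κ : ℝ)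
    (h : ∀ k p, Pos p → log (N2 (p * Y k)) ≤ κ + 2 / 3 * log (N2 (p * Z k)) + 1 / 3 * log (N2 p))
    (a b : ℝ) (m : ℕ) : ∀ (p : A G) (y : ℝ), Pos p →
      (∀ T ⊆ range m, log (N2 (p * ∏ k ∈ T, Z k)) ≤ a + b * (T.card - y) ^ 2) →
      log (N2 (p * ∏ k ∈ range m, Y k)) ≤ m * κ + a + b * ((2 / 3 * m - y) ^ 2 + 2 / 9 * m) := by
  induction m with
  | zero => intro p y _ k; simpa using k ∅ (Subset.refl _)
  | succ m ih =>
    intro p y hp k
    have h1 := h m _ (hp.mul (pos_prod (range m) Y fun k _ => hY k))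
    have h2 := ih p y hp fun T hT => k T (hT.trans (range_subset_range.2 (Nat.le_succ m)))
    have h3 := ih (p * Z m) (y - 1) (hp.mul (hZ m)) fun T hT => by
      have hm : m ∉ T := fun hm => notMem_range_self (hT hm)
      have := k (insert m T) (by rw [range_add_one]; exact insert_subset_insert m hT)
      rw [prod_insert hm, card_insert_of_notMem hm, ← mul_assoc] at this
      push_cast at this
      convert this using 4
      ring
    rw [prod_range_succ, ← mul_assoc]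
    rw [mul_right_comm p _ (Z m)] at h1
    push_cast
    linarith

end Pool.Agent.Work.MP_baf0bc_nt.Zh
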