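import Pool.Agent.Work.MP_baf0bc_nt.Zh.Hyp

/-! The backward automaton of the 3/2-shift and the certificate on quadruples of states. -/

set_option autoImplicit false

open Real

namespace Pool.Agent.Work.MP_baf0bc_nt.Zh

def d0 (s : Fin 9) : Fin 9 := Fin.ofNat 9 (0x854332100 >>> (4 * s.1) % 16)

def d1 (s : Fin 9) : Fin 9 := Fin.ofNat 9 (0x888877776 >>> (4 * s.1) % 16)

abbrev St := Fin 9 × Fin 9 × Fin 9 × Fin 9

def LL : ℕ → St → List St
  | 0, (a, b, c, d) => [(d0 a, d0 b, d1 c, d1 d)]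
  | 1, (a, b, c, d) => [(d1 a, d0 b, d1 c, d1 d), (d0 a, d1 b, d1 c, d1 d), (d0 a, d0 b, d0 c, d1 d),
      (d0 a, d0 b, d1 c, d0 d)]
  | 2, (a, b, c, d) => [(d1 a, d1 b, d1 c, d1 d), (d1 a, d0 b, d0 c, d1 d), (d1 a, d0 b, d1 c, d0 d),
      (d0 a, d1 b, d0 c, d1 d), (d0 a, d1 b, d1 c, d0 d), (d0 a, d0 b, d0 c, d0 d)]
  | 3, (a, b, c, d) => [(d1 a, d1 b, d0 c, d1 d), (d1 a, d1 b, d1 c, d0 d), (d1 a, d0 b, d0 c, d0 d),
      (d0 a, d1 b, d0 c, d0 d)]
  | _, (a, b, c, d) => [(d1 a, d1 b, d0 c, d0 d)]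

def sm {M : Type} [AddMonoid M] (e : ℕ) (f : St → M) (A : St) : M := ((LL e A).map f).sum

def pr (a b : ℕ) : ℕ := if a ≤ b then b * (b + 1) / 2 + a else a * (a + 1) / 2 + b

def ww (x y : ℕ) : ℕ :=
  0xe8f0f840fe511ae12601362140e1623118411f613c6147b159516a418ad126e14501504163117471956183519081a251b571ea919f21b181c6a1fc31c801dc8215a1f09228226aa126b12d4149415581674173f193217b718461a451b161c671dfb1ffb18dd1aed1bbe1d221ebe20c41f2320202186233a2654213a22a5247c27a3244e2621299228392b8c2f6d135c152a15ed171717e819e3183818e81af41bc51d221ec220c819a21bc41c951e071fb121c02021211e22922454277f223423af259428cc256c274f2ad629692cd330cb1a891b641caf1d9c1fbf1a051ac420c421a9232624ee27341b8f21c622ac24402613285e2d842eca308232d43741302d31ed346738df33f436693b50391d3dec45281c7e1dc41eb920f41ae31ba221ba22e22457263528911c6e22bd23e52571275929ba2eb9304831fb346238ed31ff33b9364a3af435bb384a3d613b1b4018476a1f77207522d01c391d0823412465265828422abd1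de72459257e278d297f2c00308d321d346036d33ba833cc361738b63da738bc3b5940be3e33437e4ae4226024cf1d901e6724c325fd27f12ad32d611f4f25e6272029312c272ebb3274341a366239f63ede35e238323bfe41013add3eae442942e3485a4f1229251f62204026d728252a372d3531cf212f280229502b812e92333c36ab38473a9d3db6459b3a0b3c663fde47cc3f1842cc4b0f470b4f1f59f023e024b52713281c2a0a2ce22ed6259b280a29122b1c2e052ffc2d262e5c3063339b36b02faa31b13521384a3422379c3b0b3bca3ef441f825b22821292c2b292e14300f26c329492a532c6c2f6c316d2e952fcc31e5352d384f311a333236b239e935b439413cc43d8a40cb43ea2f9130b132d535fb384e294630f332133456379239e83ef5407f42e146b04b4842204481488e4d3e47524b69508c504955455b2d32253444379639fa2a533216338a35c7392c3b94405542384496488a4d44443a46994ace4fa7495c4da052ec52c157e95dcd37143a5e3cdf2c60344c35bd38ae3c0a3e8f42c844ab47c44ba2509e46ad49c54de552fa4d6151905722569f5c1a62573ec641672f60378839273c114093433a469c48b14bc650fe56244aee4e03538c58c95182571c5cdd5dd263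7869d04684316139e43b943e9b433f486b4a854cb2500555465d164f0a525d57f35ff756225bc7647b62936b46753428032aa22bae2dd830f132fb3023315b338636e13a0e32a534d138633ba637673b093ea03f7042ca4605329c33be3614396b3bcb412c42b5452c49184dc4445346ca4af24fb549b14de6532652ef580a5e0d353437883b0a3d7b428e447046e64af74fc4466f48e74d3752224bc35023558a556b5ab160b13a903e0a409a452647094a3d4e3d5352490a4c3d507f55ac4ff6544b59fe59895f24658342b5456749194b2b4e5a53bb58f84d65509456455b98543459fa5fda60e966b36d344aaf4d074f3252a4580f6005518854fa5ab862e158e45eb5679965bb6ea178ca629764df67ee6d9875dd67586a63705e78d46dc373b57cef7b0784498fe167966aaa707e78fc6a866d9773c07c7970f6771780937e9a8826941c6ea974747d736d9f719c77bd80f076007c1f8623837c8da09a727c30852673a477a17fb688de7c00840e8e0b8dc797e4a4b891467c5e80e188f1955a85f08df59b6a9758a4f7b6346df4710c7769806a74677abd847c82798c5298b3750f7b6d84ee79717fd08a1a876e91da9f1183c38d3d7fd18823926b92249c9ba9e49a1589fb9245a0219bfbaa10bbeb7ef68559905b8cd097f5a6328daa98a69780a2b9b108a76ea256b166c490a437af39bd38be2ad11aea61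
    >>> (16 * pr x y) % 65536

def uu (A : St) : ℕ := ww (pr A.1.1 A.2.1.1) (pr A.2.2.1.1 A.2.2.2.1)

def frc (n : ℕ) (f : ℕ → Bool) : Bool := Nat.rec (f 0) (fun k _ => f (k + 1)) n

theorem frc_eq (n : ℕ) (f : ℕ → Bool) : frc n f = f n := by cases n <;> rfl

def ck (a b c K α β : ℕ) : Bool := decide (α * (a + b + c) ≤ K) &&
  decide (β ^ 2 * (a ^ 2 + b ^ 2 + c ^ 2) ≤ (K - α * (a + b + c)) ^ 2 + β ^ 2 * (a * b + b * c + c * a))

def ok (a b c u : ℕ) : Bool := ck a b c (143 * u) 25 0 && ck a b c (2574 * u) 363 464 &&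
  ck a b c (40040 * u) 4917 9650

def chk (a b c d : Fin 9) : Bool :=
  frc (d0 a).1 fun a0 => frc (d1 a).1 fun a1 => frc (d0 b).1 fun b0 => frc (d1 b).1 fun b1 =>
  frc (d0 c).1 fun c0 => frc (d1 c).1 fun c1 => frc (d0 d).1 fun e0 => frc (d1 d).1 fun e1 =>
  frc (pr a0 b0) fun p0 => frc (pr a1 b0) fun p1 => frc (pr a0 b1) fun p2 => frc (pr a1 b1) fun p3 =>
  frc (pr c0 e0) fun q0 => frc (pr c1 e0) fun q1 => frc (pr c0 e1) fun q2 => frc (pr c1 e1) fun q3 =>
  frc (ww p0 q3 + (ww p3 q2 + (ww p3 q1 + (ww p1 q0 + ww p2 q0)))) fun x =>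
  frc (ww p1 q3 + (ww p2 q3 + (ww p0 q2 + ww p0 q1)) + ww p3 q0) fun y =>
  frc (ww p3 q3 + (ww p1 q2 + (ww p1 q1 + (ww p2 q2 + (ww p2 q1 + ww p0 q0))))) fun z =>
  frc (uu (a, b, c, d)) fun u => ok x y z u &&
    (a.1 == 8 || b.1 == 8 || c.1 == 8 || d.1 == 8 || decide (1 ≤ u))

theorem cert1 : ∀ a b c d : Fin 9, chk a b c d = true := by decide +kernel

theorem cert0 (a b c d : Fin 9) : ok (sm 0 uu (a, b, c, d) + sm 3 uu (a, b, c, d))
    (sm 1 uu (a, b, c, d) + sm 4 uu (a, b, c, d)) (sm 2 uu (a, b, c, d)) (uu (a, b, c, d)) = true := by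
  have h := cert1 a b c d
  simp only [chk, frc_eq, Bool.and_eq_true] at h
  simp only [sm, LL, List.map, List.sum_cons, List.sum_nil, add_zero]
  exact h.1

theorem uu_pos (a b c d : Fin 9) : a = 8 ∨ b = 8 ∨ c = 8 ∨ d = 8 ∨ 1 ≤ uu (a, b, c, d) := by
  have h := cert1 a b c d
  simp only [chk, frc_eq, Bool.and_eq_true] at h
  have k := h.2
  clear h
  generalize uu (a, b, c, d) = u at *
  simp only [Bool.or_eq_true, beq_iff_eq, decide_eq_true_eq, or_assoc] at k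
  simp only [Fin.ext_iff]
  exact k

theorem uu_zero : uu (0, 0, 0, 0) = 60001 := by decide +kernel

theorem ck_spec {a b c K α β : ℕ} (h : ck a b c K α β = true) : (α : ℝ) * (a + b + c) +
    β * √((a : ℝ) ^ 2 + b ^ 2 + c ^ 2 - a * b - b * c - c * a) ≤ K := by
  simp only [ck, Bool.and_eq_true, decide_eq_true_eq] at h
  obtain ⟨h1, h2⟩ := h
  obtain ⟨k, rfl⟩ := Nat.exists_eq_add_of_le h1
  rw [Nat.add_sub_cancel_left] at h2
  have h3 : (β : ℝ) ^ 2 * (a ^ 2 + b ^ 2 + c ^ 2) ≤ k ^ 2 + β ^ 2 * (a * b + b * c + c * a) := by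
    exact_mod_cast h2
  have D0 : 0 ≤ (a : ℝ) ^ 2 + b ^ 2 + c ^ 2 - a * b - b * c - c * a := by
    linarith [sq_nonneg ((a : ℝ) - b), sq_nonneg ((b : ℝ) - c), sq_nonneg ((c : ℝ) - a)]
  have h4 : (β : ℝ) * √((a : ℝ) ^ 2 + b ^ 2 + c ^ 2 - a * b - b * c - c * a) ≤ k :=
    lsq (Nat.cast_nonneg k) (by rw [mul_pow, sq_sqrt D0]; linarith)
  push_cast
  linarith

theorem cert (A : St) : ∃ a b c : ℝ, a = (sm 0 uu A : ℕ) + (sm 3 uu A : ℕ) ∧
    b = (sm 1 uu A : ℕ) + (sm 4 uu A : ℕ) ∧ c = (sm 2 uu A : ℕ) ∧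
    CH (a + b + c) √(a ^ 2 + b ^ 2 + c ^ 2 - a * b - b * c - c * a) (143 / 25 * uu A) := by
  obtain ⟨a, b, c, d⟩ := A
  have h := cert0 a b c d
  simp only [ok, Bool.and_eq_true] at h
  have h1 := ck_spec h.1.1
  have h2 := ck_spec h.1.2
  have h3 := ck_spec h.2
  refine ⟨_, _, _, rfl, rfl, rfl, ?_⟩
  push_cast at h1 h2 h3
  exact ⟨by linarith, by linarith, by linarith⟩

end Pool.Agent.Work.MP_baf0bc_nt.Zh
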