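import Pool.Agent.Lib.Subspace.CoreG

/-! A consequence of the Subspace Theorem: several blocks are jointly independent 2-adically,
with a size condition for each possible first block. -/

set_option autoImplicit false

open Filter Real Finset

namespace Pool.Agent.Work.MP_baf0bc_nt.Zh

open Pool.Agent.Lib.Subspace

theorem dio (m : ℕ) {ε : ℝ} (hε : 0 < ε) : ∀ᶠ s : ℕ in atTop, ∀ (L M : ℕ) (X : ℕ → ℤ),
    L ≤ 2 * m * s → |X 0| ≤ 2 ^ L → (∀ k, k ≠ 0 → |(X k : ℝ)| * exp (ε * s) ≤ 3 ^ s) →
    (∀ k0, X k0 ≠ 0 → (∀ k ≤ m, X k ≠ 0 → k0 ≤ k) →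
      3 ^ (s * (#{k ∈ range (m + 1) | k ≠ 0 ∧ X k ≠ 0} + 1)) *
        2 ^ (if k0 = 0 then L else (k0 - 1) * s) ≤ 2 ^ M) →
    (2 : ℤ) ^ M ∣ ∑ k ∈ range (m + 1), X k * 2 ^ ((k - 1) * s) * 3 ^ ((m - k) * s) →
    ∀ k ∈ range (m + 1), X k = 0 := by
  by_contra h
  rw [not_eventually] at h
  obtain ⟨U, hU⟩ := Ultrafilter.exists_le (_ ⊓ 𝓟 _) (h := frequently_iff_neBot.1 h)
  rw [le_inf_iff, le_principal_iff] at hU
  let p2 : Nat.Primes := ⟨2, Nat.prime_two⟩
  let p3 : Nat.Primes := ⟨3, Nat.prime_three⟩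
  have hne : p2 ≠ p3 := fun k => absurd (congrArg Subtype.val k) (by decide)
  have hS : ∀ᶠ s : ℕ in (U : Filter ℕ), ∃ S : (range (m + 1)).powerset,
      CData (Fintype.card S.1) {p2, p3} (6 * m + 2) 1 (ε / 2) 0 s := by
    filter_upwards [hU.2, hU.1 (eventually_ge_atTop 1)] with s hs s1
    clear h hU
    simp only [not_forall] at hs
    obtain ⟨L, M, X, h2, h3, h4, h6, h7, k0, k1, k2⟩ := hs
    set S := {k ∈ range (m + 1) | X k ≠ 0} with hS
    have Sn : S.Nonempty := ⟨k0, mem_filter.2 ⟨k1, k2⟩⟩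
    let i0 : S := ⟨S.min' Sn, min'_mem _ _⟩
    have hm : ∀ k : S, k.1 ≤ m := fun k => Nat.lt_succ_iff.1 (mem_range.1 (mem_filter.1 k.2).1)
    have hX : ∀ k : S, X k ≠ 0 := fun k => (mem_filter.1 k.2).2
    have e0 : 1 ≤ exp (ε * s) := one_le_exp (by positivity)
    have h4' : ∀ k, k ≠ 0 → |(X k : ℝ)| ≤ 3 ^ s := fun k hk =>
      (le_mul_of_one_le_right (abs_nonneg _) e0).trans (h4 k hk)
    have h3' : |(X 0 : ℝ)| ≤ 2 ^ L := by exact_mod_cast h3
    have ha : ∀ k : S, |(X k : ℝ)| * 2 ^ ((k.1 - 1) * s) ≤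
        2 ^ (if k.1 = 0 then L else (k.1 - 1) * s) * if k.1 ≠ 0 then 3 ^ s else 1 := fun k => by
      by_cases hk : k.1 = 0
      · rw [hk]
        simpa using h3'
      · rw [if_neg hk, if_pos hk, mul_comm]
        exact mul_le_mul_of_nonneg_left (h4' _ hk) (by positivity)
    have hb : ∀ k : S, (if k.1 = 0 then L else (k.1 - 1) * s) ≤ 2 * m * s := fun k => by
      split_ifs
      · exact h2
      · exact Nat.mul_le_mul_right _ (by have := hm k; omega)
    replace h6 := h6 i0 (hX i0) fun k hk hx =>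
      min'_le _ _ (mem_filter.2 ⟨mem_range.2 (Nat.lt_succ_of_le hk), hx⟩)
    have ha0 := ha i0
    generalize (if i0.1 = 0 then L else (i0.1 - 1) * s) = Lp at h6 ha0
    have e3 : (3 : ℝ) ≤ exp 2 := by linarith [add_one_le_exp (2 : ℝ)]
    refine ⟨⟨S, mem_powerset.2 (filter_subset _ _)⟩, coreg_cdata _ _ _ _ _ _
      (fun k : S => X k * 2 ^ ((k.1 - 1) * s) * 3 ^ ((m - k) * s))
      (fun ℓ => if ℓ = p2 then (1 : Matrix S S ℤ).updateRow i0 (fun _ => 1) else 1)
      (fun ℓ _ => ?_) (fun ℓ _ i k => ?_) (fun i => ?_) ?_ fun c hc hs => ?_⟩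
    · split_ifs
      · have := Matrix.det_updateRow_sum (1 : Matrix S S ℤ) i0 fun _ => 1
        rw [show (∑ k : S, (1 : ℤ) • (1 : Matrix S S ℤ) k) = fun _ => 1 by
          funext i; simp [Matrix.one_apply]] at this
        simp [this]
      · simp
    · rw [zero_mul, exp_zero]
      split_ifs
      · rw [Matrix.updateRow_apply, Matrix.one_apply]
        split_ifs <;> simp
      · rw [Matrix.one_apply]
        split_ifs <;> simp
    · push_cast
      rw [abs_mul, abs_mul, abs_of_pos (by positivity : (0 : ℝ) < 2 ^ ((i.1 - 1) * s)),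
        abs_of_pos (by positivity : (0 : ℝ) < 3 ^ ((m - i) * s))]
      calc _ ≤ (3 : ℝ) ^ (2 * m * s) * 3 ^ s * 3 ^ (m * s) := by
            refine mul_le_mul ((ha i).trans (mul_le_mul ?_ ?_ (by positivity) (by positivity)))
              (pow_le_pow_right₀ (by norm_num) (Nat.mul_le_mul_right _ (Nat.sub_le _ _)))
              (by positivity) (by positivity)
            · exact (pow_le_pow_left₀ zero_le_two (by norm_num) _).trans
                (pow_le_pow_right₀ (by norm_num) (hb i))
            · split_ifs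
              exacts [le_rfl, one_le_pow₀ (by norm_num)]
        _ = 3 ^ ((3 * m + 1) * s) := by ring
        _ ≤ exp 2 ^ ((3 * m + 1) * s) := pow_le_pow_left₀ (by norm_num) e3 _
        _ = _ := by rw [← exp_nat_mul]; push_cast; ring_nf
    · rw [Finset.prod_pair hne, ← prod_mul_distrib, ← prod_mul_distrib]
      calc _ ≤ ∏ k : S, ((if k = i0 then (2 : ℝ) ^ Lp / 2 ^ M else 1) *
            if k.1 ≠ 0 then 3 ^ s else 1) := by
            refine prod_le_prod (fun k _ => mul_nonneg (abs_nonneg _)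
              (mul_nonneg ((pad _).nonneg _) ((pad _).nonneg _))) fun k _ => ?_
            have a3 := pad_le_of_dvd p3 (X k * 2 ^ ((k.1 - 1) * s) * 3 ^ ((m - k) * s))
              ((m - k) * s) (Dvd.intro_left _ rfl)
            have a2 := pad_le_of_dvd p2 (X k * 2 ^ ((k.1 - 1) * s) * 3 ^ ((m - k) * s))
              ((k.1 - 1) * s) ((Dvd.intro_left _ rfl).mul_right _)
            have ab : |((X k * 2 ^ ((k.1 - 1) * s) * 3 ^ ((m - k) * s) : ℤ) : ℝ)| =
                |(X k : ℝ)| * 2 ^ ((k.1 - 1) * s) * 3 ^ ((m - k) * s) := by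
              push_cast
              rw [abs_mul, abs_mul, abs_of_pos (by positivity : (0 : ℝ) < 2 ^ ((k.1 - 1) * s)),
                abs_of_pos (by positivity : (0 : ℝ) < 3 ^ ((m - k) * s))]
            simp only [if_neg hne.symm, if_true, Matrix.updateRow_apply, Matrix.one_apply, ite_mul,
              one_mul, zero_mul, sum_ite_eq, mem_univ, ab]
            by_cases hk : k = i0
            · have a1 := pad_le_of_dvd p2 (∑ k : S, X k * 2 ^ ((k.1 - 1) * s) * 3 ^ ((m - k) * s))
                M (by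
                  rw [sum_coe_sort S fun k => X k * 2 ^ ((k - 1) * s) * 3 ^ ((m - k) * s), hS,
                    sum_filter_of_ne (p := fun k => X k ≠ 0) fun k _ hk h0 => hk (by simp [h0])]
                  exact h7)
              simp only [if_pos hk]
              calc _ ≤ |(X k : ℝ)| * 2 ^ ((k.1 - 1) * s) * 3 ^ ((m - k) * s) *
                    (((2 : ℝ) ^ M)⁻¹ * ((3 : ℝ) ^ ((m - k) * s))⁻¹) := by
                    gcongr
                    · exact_mod_cast a1
                    · exact_mod_cast a3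
                _ = |(X k : ℝ)| * 2 ^ ((k.1 - 1) * s) / 2 ^ M := by field_simp
                _ ≤ (2 ^ Lp * if k.1 ≠ 0 then 3 ^ s else 1) / 2 ^ M :=
                  div_le_div_of_nonneg_right (by rw [hk]; exact ha0) (by positivity)
                _ = _ := by ring
            · have k0 : k.1 ≠ 0 := fun h0 => hk (Subtype.ext
                (le_antisymm (h0 ▸ Nat.zero_le _) (min'_le _ _ k.2)))
              simp only [if_neg hk, if_pos k0, sum_ite_eq, mem_univ, if_true]
              calc _ ≤ |(X k : ℝ)| * 2 ^ ((k.1 - 1) * s) * 3 ^ ((m - k) * s) *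
                    (((2 : ℝ) ^ ((k.1 - 1) * s))⁻¹ * ((3 : ℝ) ^ ((m - k) * s))⁻¹) := by
                    gcongr
                    · exact_mod_cast a2
                    · exact_mod_cast a3
                _ = |(X k : ℝ)| := by field_simp
                _ ≤ _ := h4' _ k0
        _ = 2 ^ Lp / 2 ^ M * (3 ^ s) ^ #{k ∈ range (m + 1) | k ≠ 0 ∧ X k ≠ 0} := by
            rw [prod_mul_distrib, prod_ite_eq', if_pos (mem_univ _),
              prod_coe_sort S fun k => if k ≠ 0 then (3 : ℝ) ^ s else 1, ← prod_filter, prod_const,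
              hS, filter_filter]
            simp only [and_comm]
        _ ≤ (3 ^ s)⁻¹ := by
            generalize #{k ∈ range (m + 1) | k ≠ 0 ∧ X k ≠ 0} = j at h6 ⊢
            have : (3 : ℝ) ^ (s * (j + 1)) * 2 ^ Lp ≤ 2 ^ M := by exact_mod_cast h6
            rw [div_mul_eq_mul_div, div_le_iff₀ (by positivity), inv_mul_eq_div,
              le_div_iff₀ (by positivity)]
            refine le_trans (le_of_eq ?_) this
            ring
        _ ≤ _ := by
            rw [one_mul, exp_neg, ← exp_one_pow]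
            gcongr
            linarith [exp_one_lt_d9]
    · by_contra hcon
      simp only [not_exists, not_lt] at hcon
      obtain ⟨k, hk, hmax⟩ := exists_max_image {k : S | c k ≠ 0} (fun k => k.1) (by
        obtain ⟨k, hk⟩ := Function.ne_iff.1 hc
        exact ⟨k, mem_filter.2 ⟨mem_univ _, hk⟩⟩)
      have ck : c k ≠ 0 := (mem_filter.1 hk).2
      have lt : ∀ i : S, i ≠ k → c i ≠ 0 → i.1 < k.1 := fun i hi h0 =>
        lt_of_le_of_ne (hmax i (mem_filter.2 ⟨mem_univ _, h0⟩)) fun e => hi (Subtype.ext e)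
      rw [← add_sum_erase _ _ (mem_univ k), add_eq_zero_iff_eq_neg] at hs
      rcases eq_or_ne k.1 0 with h0 | h0
      · rw [sum_eq_zero fun i hi => by
          rw [show c i = 0 by
            by_contra hci
            have := lt i (ne_of_mem_erase hi) hci
            omega, zero_mul]] at hs
        simp [ck, hX k] at hs
      have d1 : (3 : ℤ) ^ ((m - k) * s) * 3 ^ s ∣
          3 ^ ((m - k) * s) * (c k * X k * 2 ^ ((k.1 - 1) * s)) := by
        rw [show (3 : ℤ) ^ ((m - k) * s) * (c k * X k * 2 ^ ((k.1 - 1) * s)) =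
          c k * (X k * 2 ^ ((k.1 - 1) * s) * 3 ^ ((m - k) * s)) by ring, hs, dvd_neg]
        refine dvd_sum fun i hi => ?_
        rcases eq_or_ne (c i) 0 with hci | hci
        · simp [hci]
        · have := lt i (ne_of_mem_erase hi) hci
          have := hm k
          rw [← pow_add, ← add_one_mul]
          exact ((pow_dvd_pow _ (Nat.mul_le_mul_right _ (by omega))).mul_left _).mul_left _
      have d2 : (3 : ℤ) ^ s ∣ c k * X k :=
        (IsCoprime.pow (by norm_num : IsCoprime (3 : ℤ) 2)).dvd_of_dvd_mul_right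
          (Int.dvd_of_mul_dvd_mul_left (by positivity) d1)
      have l3 : |c k * X k| < 3 ^ s := by
        have : |((c k * X k : ℤ) : ℝ)| < 3 ^ s := by
          push_cast
          rw [abs_mul, mul_comm]
          refine lt_of_lt_of_le (mul_lt_mul_of_pos_left ((hcon k).trans_lt (exp_lt_exp.2 ?_))
            (abs_pos.2 (Int.cast_ne_zero.2 (hX k)))) (h4 _ h0)
          have : (0 : ℝ) < s := Nat.cast_pos.2 s1
          nlinarith
        exact_mod_cast this
      exact mul_ne_zero ck (hX k) (Int.eq_zero_of_abs_lt_dvd d2 l3)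
  obtain ⟨S, hS⟩ := Ultrafilter.eventually_exists_iff.1 hS
  refine core _ {p2, p3} (6 * m + 2) 1 (ε / 2) (by positivity) one_pos (by positivity) U hU.1
    fun σ hσ => hS.mono fun s ⟨x, A, h1, h2, h3⟩ => ⟨x, A, h1, fun ℓ hℓ i k =>
      (h2 ℓ hℓ i k).trans (exp_le_exp.2 ?_), h3⟩
  rw [zero_mul]
  positivity

end Pool.Agent.Work.MP_baf0bc_nt.Zh
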