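import Mathlib

/-! A hypercontractive inequality on three points. -/

set_option autoImplicit false

open Real

namespace Pool.Agent.Work.MP_baf0bc_nt.Zh

def PI (m c : ℝ) : Prop := ∀ x z : ℝ, 0 ≤ x → 0 ≤ z →
  x ^ 6 + 30 * m ^ 2 * x ^ 4 * z ^ 2 + 40 * m ^ 3 * x ^ 3 * z ^ 3 + 90 * m ^ 4 * x ^ 2 * z ^ 4 +
    60 * m ^ 5 * x * z ^ 5 + 22 * m ^ 6 * z ^ 6 ≤ c ^ 3 * (x ^ 2 + 2 * m * z ^ 2) ^ 3

theorem pi1 : PI (3 / 16) 1 := fun x z _ _ => by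
  linarith [sq_nonneg (x * z * (8 * x - 15 * z)), sq_nonneg (z ^ 2 * (x - z)), sq_nonneg (x * z ^ 2),
    sq_nonneg (z ^ 3)]

theorem pi_aux {x z : ℝ} (hx : 0 ≤ x) (hz : 0 ≤ z) (w : ℝ) :
    0 ≤ x ^ 4 * w ^ 2 ∧ 0 ≤ x ^ 3 * z * w ^ 2 ∧ 0 ≤ x ^ 2 * z ^ 2 * w ^ 2 ∧ 0 ≤ x * z ^ 3 * w ^ 2 ∧
      0 ≤ z ^ 4 * w ^ 2 ∧ 0 ≤ x ^ 6 ∧ 0 ≤ x ^ 5 * z := by
  refine ⟨?_, ?_, ?_, ?_, ?_, ?_, ?_⟩ <;> positivity

theorem pi2 : PI (3 / 10) (279 / 250) := fun x z hx hz => by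
  obtain ⟨a, b, c, d, e, f, g⟩ := pi_aux hx hz (49 * z - 46 * x)
  linarith

theorem pi3 : PI 1 (2081 / 1000) := fun x z hx hz => by
  obtain ⟨a, b, c, d, e, f, g⟩ := pi_aux hx hz (256 * z - 255 * x)
  linarith

theorem lsq {a b : ℝ} (hb : 0 ≤ b) (h : a ^ 2 ≤ b ^ 2) : a ≤ b :=
  le_of_pow_le_pow_left₀ two_ne_zero hb h

theorem young (a b : ℝ) : 6 * a ^ 5 * b ≤ 5 * a ^ 6 + b ^ 6 := by
  have : 0 ≤ (b - a) ^ 2 * ((b ^ 2 + a * b) ^ 2 + 2 * a ^ 2 * (b + a) ^ 2 + 3 * a ^ 4) := by positivity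
  linarith

/-- Mean of the fifth powers. -/
noncomputable def mn (p q r : ℝ) : ℝ := (p ^ 5 + q ^ 5 + r ^ 5) / 3

/-- Variance of the fifth powers. -/
noncomputable def vr (p q r : ℝ) : ℝ :=
  ((p ^ 5 - mn p q r) ^ 2 + (q ^ 5 - mn p q r) ^ 2 + (r ^ 5 - mn p q r) ^ 2) / 3

theorem six {m c x D E v : ℝ} (h : PI m c) (m0 : 0 ≤ m) (x0 : 0 ≤ x)
    (hv : v = (D ^ 2 + E ^ 2 + (D + E) ^ 2) / 3) :
    (x + m * D) ^ 6 + (x + m * E) ^ 6 + (x - m * (D + E)) ^ 6 ≤ 3 * (c ^ 3 * (x ^ 2 + m * v) ^ 3) := by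
  have v0 : 0 ≤ v / 2 := by rw [hv]; positivity
  obtain ⟨z, z0, hz⟩ : ∃ z, 0 ≤ z ∧ z ^ 2 = v / 2 := ⟨√(v / 2), sqrt_nonneg _, sq_sqrt v0⟩
  obtain ⟨w, hw⟩ : ∃ w, w = -(D * E * (D + E)) := ⟨_, rfl⟩
  have vz : v = 2 * z ^ 2 := by linarith
  have h1 : w ^ 2 ≤ (2 * z ^ 3) ^ 2 := by
    have : (2 * z ^ 3) ^ 2 = v ^ 3 / 2 := by rw [vz]; ring
    rw [this, hv, hw]
    linarith [sq_nonneg ((D - E) * (2 * D + E) * (D + 2 * E))]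
  have h2 : w ≤ 2 * z ^ 3 := lsq (by positivity) h1
  have h3 : (x + m * D) ^ 6 + (x + m * E) ^ 6 + (x - m * (D + E)) ^ 6 = 3 * (x ^ 6 +
      15 * m ^ 2 * x ^ 4 * v + (20 * m ^ 3 * x ^ 3 + 15 * m ^ 5 * x * v) * w +
      45 / 2 * m ^ 4 * x ^ 2 * v ^ 2 + m ^ 6 * w ^ 2 + 9 / 4 * m ^ 6 * v ^ 3) := by
    rw [hv, hw]; ring
  have h4 := mul_le_mul_of_nonneg_left h2
    (show 0 ≤ 20 * m ^ 3 * x ^ 3 + 15 * m ^ 5 * x * v by rw [vz]; positivity)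
  have h5 := mul_le_mul_of_nonneg_left h1 (show 0 ≤ m ^ 6 by positivity)
  have h6 := h x z x0 z0
  rw [h3]
  subst vz
  linarith

theorem hyp {m c : ℝ} (h : PI m c) (m0 : 0 ≤ m) (c0 : 0 < c) {p q r A : ℝ} (hp : 0 ≤ p) (hq : 0 ≤ q)
    (hr : 0 ≤ r) (hA : 0 ≤ A) (hs : p ^ 6 + q ^ 6 + r ^ 6 ≤ 3 * A ^ 6) :
    mn p q r ^ 2 + m * vr p q r ≤ c * A ^ 10 := by
  have x0 : 0 ≤ mn p q r := by unfold mn; positivity
  have v0 : 0 ≤ vr p q r := by unfold vr; positivity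
  have hx : 3 * mn p q r = p ^ 5 + q ^ 5 + r ^ 5 := by unfold mn; ring
  have hv : vr p q r = ((p ^ 5 - mn p q r) ^ 2 + (q ^ 5 - mn p q r) ^ 2 +
      (r ^ 5 - mn p q r) ^ 2) / 3 := rfl
  generalize mn p q r = x at *
  generalize vr p q r = v at *
  have e : r ^ 5 - x = -(p ^ 5 - x + (q ^ 5 - x)) := by linarith
  have h1 := six h m0 x0 (D := p ^ 5 - x) (E := q ^ 5 - x) (v := v) (by rw [hv, e]; ring)
  obtain ⟨Q, hQ⟩ : ∃ Q, Q = x ^ 2 + m * v := ⟨_, rfl⟩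
  have Q0 : 0 ≤ Q := by rw [hQ]; positivity
  obtain ⟨Y, Y0, hY⟩ : ∃ Y, 0 ≤ Y ∧ Y ^ 2 = c * Q := ⟨√(c * Q), sqrt_nonneg _, sq_sqrt (by positivity)⟩
  rw [← hQ, ← mul_pow, ← hY] at h1
  rw [← hQ]
  rcases Q0.eq_or_lt with k | k
  · rw [← k]; positivity
  have Y1 : 0 < Y := lt_of_le_of_ne Y0 fun e => by
    rw [← e] at hY
    linarith only [hY, mul_pos c0 k]
  have hQ' : 3 * Q = p ^ 5 * (x + m * (p ^ 5 - x)) + q ^ 5 * (x + m * (q ^ 5 - x)) +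
      r ^ 5 * (x - m * (p ^ 5 - x + (q ^ 5 - x))) := by
    have : r ^ 5 = 3 * x - p ^ 5 - q ^ 5 := by linarith
    rw [hQ, hv, this]; ring
  rcases hA.eq_or_lt with a | a
  · subst a
    have p6 : p ^ 6 = 0 := by linarith only [hs, pow_nonneg hp 6, pow_nonneg hq 6, pow_nonneg hr 6]
    have q6 : q ^ 6 = 0 := by linarith only [hs, pow_nonneg hp 6, pow_nonneg hq 6, pow_nonneg hr 6]
    have r6 : r ^ 6 = 0 := by linarith only [hs, pow_nonneg hp 6, pow_nonneg hq 6, pow_nonneg hr 6]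
    rw [pow_eq_zero_iff (by norm_num)] at p6 q6 r6
    subst p6 q6 r6
    norm_num at hQ' ⊢
    exact hQ'.le
  have y1 := young (p * Y) ((x + m * (p ^ 5 - x)) * A)
  have y2 := young (q * Y) ((x + m * (q ^ 5 - x)) * A)
  have y3 := young (r * Y) ((x - m * (p ^ 5 - x + (q ^ 5 - x))) * A)
  generalize x + m * (p ^ 5 - x) = H1 at *
  generalize x + m * (q ^ 5 - x) = H2 at *
  generalize x - m * (p ^ 5 - x + (q ^ 5 - x)) = H3 at *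
  have h2 := mul_le_mul_of_nonneg_left h1 (show 0 ≤ A ^ 6 by positivity)
  have h3 := mul_le_mul_of_nonneg_left hs (show 0 ≤ Y ^ 6 by positivity)
  have h4 : Y ^ 5 * A * Q ≤ Y ^ 5 * A * (A ^ 5 * Y) := by
    have : Y ^ 5 * A * (3 * Q) = Y ^ 5 * A * (p ^ 5 * H1 + q ^ 5 * H2 + r ^ 5 * H3) := by rw [hQ']
    linarith only [this, y1, y2, y3, h2, h3]
  have h5 : Q ≤ A ^ 5 * Y := le_of_mul_le_mul_left h4 (by positivity)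
  have h6 : Q * Q ≤ Q * (c * A ^ 10) := by
    calc Q * Q = Q ^ 2 := by ring
      _ ≤ (A ^ 5 * Y) ^ 2 := pow_le_pow_left₀ Q0 h5 2
      _ = _ := by rw [mul_pow, hY]; ring
  exact le_of_mul_le_mul_left h6 k

/-- The three chords. -/
def CH (s δ K : ℝ) : Prop :=
  s ≤ K ∧ 121 / 150 * s + 232 / 225 * δ ≤ K ∧ 4917 / 7000 * s + 193 / 140 * δ ≤ K

theorem chord {s δ K : ℝ} (h : CH s δ K) (d0 : 0 ≤ δ) (d1 : δ ≤ s) {p q r A : ℝ} (hp : 0 ≤ p)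
    (hq : 0 ≤ q) (hr : 0 ≤ r) (hA : 0 ≤ A) (hs : p ^ 6 + q ^ 6 + r ^ 6 ≤ 3 * A ^ 6) :
    s * mn p q r ^ 2 + δ * vr p q r ≤ K * A ^ 10 := by
  have h1 := hyp pi1 (by norm_num) (by norm_num) hp hq hr hA hs
  have h2 := hyp pi2 (by norm_num) (by norm_num) hp hq hr hA hs
  have h3 := hyp pi3 (by norm_num) (by norm_num) hp hq hr hA hs
  have v0 : 0 ≤ vr p q r := by unfold vr; positivity
  have a0 : 0 ≤ A ^ 10 := by positivity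
  generalize mn p q r ^ 2 = x at *
  generalize vr p q r = v at *
  generalize A ^ 10 = B at *
  rcases le_total δ (3 / 16 * s) with k | k
  · linarith [mul_le_mul_of_nonneg_left h1 (d0.trans d1), mul_le_mul_of_nonneg_right k v0,
      mul_le_mul_of_nonneg_right h.1 a0]
  rcases le_total δ (3 / 10 * s) with l | l
  · linarith [mul_le_mul_of_nonneg_left h1 (sub_nonneg.2 l),
      mul_le_mul_of_nonneg_left h2 (sub_nonneg.2 k), mul_le_mul_of_nonneg_right h.2.1 a0]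
  · linarith [mul_le_mul_of_nonneg_left h2 (sub_nonneg.2 d1),
      mul_le_mul_of_nonneg_left h3 (sub_nonneg.2 l), mul_le_mul_of_nonneg_right h.2.2 a0]

theorem three {a b c K : ℝ} (ha : 0 ≤ a) (hb : 0 ≤ b) (hc : 0 ≤ c)
    (h : CH (a + b + c) √(a ^ 2 + b ^ 2 + c ^ 2 - a * b - b * c - c * a) K)
    {p q r A p' q' r' B : ℝ} (hp : 0 ≤ p) (hq : 0 ≤ q) (hr : 0 ≤ r) (hA : 0 ≤ A)
    (hs : p ^ 6 + q ^ 6 + r ^ 6 ≤ 3 * A ^ 6) (hp' : 0 ≤ p') (hq' : 0 ≤ q') (hr' : 0 ≤ r')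
    (hB : 0 ≤ B) (hs' : p' ^ 6 + q' ^ 6 + r' ^ 6 ≤ 3 * B ^ 6) :
    p ^ 5 * (a * p' ^ 5 + b * q' ^ 5 + c * r' ^ 5) + q ^ 5 * (a * q' ^ 5 + b * r' ^ 5 + c * p' ^ 5) +
      r ^ 5 * (a * r' ^ 5 + b * p' ^ 5 + c * q' ^ 5) ≤ 3 * (K * A ^ 5 * B ^ 5) := by
  have D0 : 0 ≤ a ^ 2 + b ^ 2 + c ^ 2 - a * b - b * c - c * a := by
    linarith [sq_nonneg (a - b), sq_nonneg (b - c), sq_nonneg (c - a)]
  have hd := sq_sqrt D0
  have d0 := sqrt_nonneg (a ^ 2 + b ^ 2 + c ^ 2 - a * b - b * c - c * a)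
  generalize √(a ^ 2 + b ^ 2 + c ^ 2 - a * b - b * c - c * a) = δ at *
  have d1 : δ ≤ a + b + c := lsq (by positivity) (by
    linarith [mul_nonneg ha hb, mul_nonneg hb hc, mul_nonneg hc ha])
  have s0 : 0 ≤ a + b + c := by positivity
  have K0 : 0 ≤ K := s0.trans h.1
  have h1 := chord h d0 d1 hp hq hr hA hs
  have h2 := chord h d0 d1 hp' hq' hr' hB hs'
  have v0 : 0 ≤ vr p q r := by unfold vr; positivity
  have v1 : 0 ≤ vr p' q' r' := by unfold vr; positivity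
  obtain ⟨y, y0, hy⟩ : ∃ y, 0 ≤ y ∧ y ^ 2 = vr p q r := ⟨_, sqrt_nonneg _, sq_sqrt v0⟩
  obtain ⟨y', y0', hy'⟩ : ∃ y, 0 ≤ y ∧ y ^ 2 = vr p' q' r' := ⟨_, sqrt_nonneg _, sq_sqrt v1⟩
  rw [← hy] at h1
  rw [← hy'] at h2
  have hx : r ^ 5 = 3 * mn p q r - p ^ 5 - q ^ 5 := by unfold mn; ring
  have hx' : r' ^ 5 = 3 * mn p' q' r' - p' ^ 5 - q' ^ 5 := by unfold mn; ring
  unfold vr at hy hy'
  rw [hx] at hy ⊢
  rw [hx'] at hy' ⊢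
  generalize mn p q r = x at *
  generalize mn p' q' r' = x' at *
  obtain ⟨D, hD⟩ : ∃ D, p ^ 5 = x + D := ⟨p ^ 5 - x, by ring⟩
  obtain ⟨E, hE⟩ : ∃ E, q ^ 5 = x + E := ⟨q ^ 5 - x, by ring⟩
  obtain ⟨D', hD'⟩ : ∃ D, p' ^ 5 = x' + D := ⟨p' ^ 5 - x', by ring⟩
  obtain ⟨E', hE'⟩ : ∃ E, q' ^ 5 = x' + E := ⟨q' ^ 5 - x', by ring⟩
  rw [hD, hE] at hy ⊢
  rw [hD', hE'] at hy' ⊢
  obtain ⟨u, hu⟩ : ∃ u, u = a * D' + b * E' - c * (D' + E') := ⟨_, rfl⟩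
  obtain ⟨w, hw⟩ : ∃ w, w = a * E' - b * (D' + E') + c * D' := ⟨_, rfl⟩
  have e1 : u ^ 2 + w ^ 2 + (u + w) ^ 2 = 3 * (δ ^ 2 * y' ^ 2) := by rw [hd, hy', hu, hw]; ring
  have e2 : D ^ 2 + E ^ 2 + (D + E) ^ 2 = 3 * y ^ 2 := by rw [hy]; ring
  have e3 : D * u + E * w + (D + E) * (u + w) ≤ 3 * (δ * y * y') := lsq (by positivity) (by
    have : (3 * (δ * y * y')) ^ 2 = (D ^ 2 + E ^ 2 + (D + E) ^ 2) * (u ^ 2 + w ^ 2 + (u + w) ^ 2) := by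
      rw [e1, e2]; ring
    rw [this]
    linarith [sq_nonneg (D * w - E * u)])
  have e4 : (a + b + c) * x * x' + δ * y * y' ≤ K * A ^ 5 * B ^ 5 := lsq (by positivity) (by
    calc _ ≤ ((a + b + c) * x ^ 2 + δ * y ^ 2) * ((a + b + c) * x' ^ 2 + δ * y' ^ 2) := by
          linarith [mul_nonneg (mul_nonneg s0 d0) (sq_nonneg (x * y' - y * x'))]
      _ ≤ K * A ^ 10 * (K * B ^ 10) := mul_le_mul h1 h2 (by positivity) (by positivity)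
      _ = _ := by ring)
  rw [hu, hw] at e3
  linarith

end Pool.Agent.Work.MP_baf0bc_nt.Zh
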