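import Pool.Agent.Work.MP_baf0bc_nt.Zh.Blk
import Pool.Agent.Work.MP_baf0bc_nt.Zh.Dio

/-! Few intervals attached to blocks of one class modulo four add injectively. -/

set_option autoImplicit false

open Finset Real Filter

namespace Pool.Agent.Work.MP_baf0bc_nt.Zh

open Pool.Agent.Work.MP_baf0bc_nt.Ne

theorem sum_blk {β : Type} [AddCommMonoid β] (F : ℕ → β) (m s : ℕ) :
    ∑ i ∈ range (m * s), F i = ∑ k ∈ range m, ∑ r ∈ range s, F (k * s + r) := by
  induction m with
  | zero => simp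
  | succ m ih => rw [add_one_mul, sum_range_add, ih, sum_range_succ]

theorem prod_blk {β : Type} [CommMonoid β] (F : ℕ → β) (m s : ℕ) :
    ∏ i ∈ range (m * s), F i = ∏ k ∈ range m, ∏ r ∈ range s, F (k * s + r) := by
  induction m with
  | zero => simp
  | succ m ih => rw [add_one_mul, prod_range_add, ih, prod_range_succ]

/-- The unit of the block number `k`. -/
def hh (M s a k : ℕ) : ZMod (2 ^ M) := 2 ^ (k * s + a) * 3 ^ (M - (k + 1) * s)

theorem inj (m : ℕ) {ε : ℝ} (hε : 0 < ε) : ∀ᶠ s : ℕ in atTop, ∀ (L M j a R i : ℕ) (T : Finset ℕ),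
    L ≤ 2 * (m * 4) * s → i < 4 → T ⊆ range m → #T ≤ j → 0 < R →
    (R : ℝ) * 2 ^ a * exp (ε * s) ≤ 3 ^ s → 3 ^ (s * (j + 1)) * 2 ^ L ≤ 2 ^ M →
    (m * 4 + 4) * s ≤ M →
    log (N2 (dig (2 ^ L) (3 ^ M) * ∏ k ∈ T, dig R (hh M s a (k * 4 + i)))) ≤
      -(L * log 2 + #T * log R) := by
  filter_upwards [dio (m * 4) hε] with s hs L M j a R i T h1 h2 h3 h4 h5 h6 h7 h8
  have R0 : (0 : ℝ) < R := Nat.cast_pos.2 h5
  have pr := (pr_dig (q := 2 ^ L) (by positivity) ((3 : ZMod (2 ^ M)) ^ M)).mul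
    (pr_prod T (fun k => dig R (hh M s a (k * 4 + i))) fun i _ => pr_dig h5 _)
  suffices H : ∀ x, (dig (2 ^ L) ((3 : ZMod (2 ^ M)) ^ M) *
      ∏ k ∈ T, dig R (hh M s a (k * 4 + i))).coeff x ≤ 1 / (((2 ^ L : ℕ) : ℝ) * (R : ℝ) ^ #T) by
    have := sum_le_sum fun x (_ : x ∈ univ) => mul_le_mul_of_nonneg_left (H x) (pr.1 x)
    simp only [← sq, ← sum_mul, pr.2, one_mul] at this
    refine (log_le_log (pos_pr pr).n2 this).trans (le_of_eq ?_)
    push_cast
    rw [one_div, log_inv, log_mul (by positivity) (by positivity), log_pow, log_pow]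
  intro x
  rw [expand, ← sum_singleton (fun x => AddMonoidAlgebra.coeff _ x) x, mass]
  refine mul_le_of_le_one_right (by positivity) (Nat.cast_le_one.2 (card_le_one.2
    fun z hz z' hz' => ?_))
  simp only [mem_filter, mem_product, mem_range, Fintype.mem_piFinset, mem_singleton] at hz hz'
  let d : ℕ → ℤ := fun k => if h : k ∈ T then (z.2 ⟨_, h⟩ : ℤ) - z'.2 ⟨_, h⟩ else 0
  have d2 : ∀ k, |d k| ≤ R := fun k => by
    simp only [d]
    split_ifs with h
    · have := hz.1.2 ⟨_, h⟩
      have := hz'.1.2 ⟨_, h⟩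
      rw [abs_le]
      omega
    · simp
  have d0 : ∀ k, k ∉ T → d k = 0 := fun k h => dif_neg h
  obtain ⟨X, X0, X1⟩ : ∃ X : ℕ → ℤ, X 0 = (z.1 : ℤ) - z'.1 ∧
      ∀ k, X (k + 1) = if k % 4 = i then d (k / 4) * 2 ^ a else 0 :=
    ⟨fun k => Nat.rec ((z.1 : ℤ) - z'.1)
      (fun k _ => if k % 4 = i then d (k / 4) * 2 ^ a else 0) k, rfl, fun _ => rfl⟩
  have X2 : ∀ k, k ≠ 0 → X k ≠ 0 → (k - 1) % 4 = i ∧ (k - 1) / 4 ∈ T := fun k hk h => by
    obtain ⟨k, rfl⟩ := Nat.exists_eq_succ_of_ne_zero hk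
    rw [X1] at h
    split_ifs at h with c
    · exact ⟨c, by_contra fun h' => h (by rw [d0 (k / 4) h', zero_mul])⟩
    · exact absurd rfl h
  have key := hs L M X h1 ?_ ?_ ?_ ?_
  · have k0 : (z.1 : ℤ) - z'.1 = 0 := X0.symm.trans (key 0 (by simp))
    refine Prod.ext (by omega) (funext fun k => ?_)
    have hk := mem_range.1 (h3 k.2)
    have k1 := key (k.1 * 4 + i + 1) (mem_range.2 (by omega))
    rw [X1, if_pos (by omega), show (k.1 * 4 + i) / 4 = k.1 by omega, mul_eq_zero] at k1
    have k2 := k1.resolve_right (by positivity)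
    simp only [d, dif_pos k.2, Subtype.coe_eta] at k2
    omega
  · have a1 : (z.1 : ℤ) < 2 ^ L := by exact_mod_cast hz.1.1
    have a2 : (z'.1 : ℤ) < 2 ^ L := by exact_mod_cast hz'.1.1
    rw [X0, abs_le]
    omega
  · intro k hk
    obtain ⟨k, rfl⟩ := Nat.exists_eq_succ_of_ne_zero hk
    refine le_trans (mul_le_mul_of_nonneg_right ?_ (exp_pos _).le) h6
    rw [X1]
    split_ifs
    · have : |((d (k / 4) : ℤ) : ℝ)| ≤ R := by exact_mod_cast d2 _
      push_cast
      rw [abs_mul, abs_of_pos (by positivity : (0 : ℝ) < 2 ^ a)]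
      gcongr
    · simp only [Int.cast_zero, abs_zero]
      positivity
  · intro k0 c1 c2
    split_ifs with c
    · refine le_trans (Nat.mul_le_mul_right _ (Nat.pow_le_pow_right (by norm_num)
        (Nat.mul_le_mul_left _ (Nat.succ_le_succ (le_trans ?_ h4))))) h7
      refine le_trans (card_le_card (t := T.image fun k => k * 4 + i + 1) fun k hk => ?_)
        card_image_le
      obtain ⟨-, k1, k2⟩ := mem_filter.1 hk
      have := X2 k k1 k2
      exact mem_image.2 ⟨_, this.2, by omega⟩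
    · have c3 := X2 k0 c c1
      have c4 := mem_range.1 (h3 c3.2)
      have c5 : #{k ∈ range (m * 4 + 1) | k ≠ 0 ∧ X k ≠ 0} ≤ (m * 4 - k0) / 4 + 1 := by
        refine le_trans (card_le_card (t := (range ((m * 4 - k0) / 4 + 1)).image
          fun u => k0 + 4 * u) fun k hk => ?_) (card_image_le.trans (card_range _).le)
        obtain ⟨k3, k1, k2⟩ := mem_filter.1 hk
        have k4 := X2 k k1 k2
        have k5 := mem_range.1 k3
        have k6 := c2 k (by omega) k2
        exact mem_image.2 ⟨(k - k0) / 4, mem_range.2 (by omega), by omega⟩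
      generalize #{k ∈ range (m * 4 + 1) | k ≠ 0 ∧ X k ≠ 0} = v at c5 ⊢
      calc _ ≤ (2 ^ 2) ^ (s * (v + 1)) * 2 ^ ((k0 - 1) * s) :=
            Nat.mul_le_mul_right _ (Nat.pow_le_pow_left (by norm_num) _)
        _ = 2 ^ ((2 * (v + 1) + (k0 - 1)) * s) := by rw [← pow_mul, ← pow_add]; congr 1; ring
        _ ≤ _ := Nat.pow_le_pow_right two_pos
            ((Nat.mul_le_mul_right _ (by omega)).trans h8)
  · have ms : m * 4 * s ≤ M := (Nat.mul_le_mul_right _ (by omega)).trans h8
    refine (IsCoprime.pow (n := M - m * 4 * s)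
      (by norm_num : IsCoprime (2 : ℤ) 3)).dvd_of_dvd_mul_right ?_
    have := (ZMod.intCast_zmod_eq_zero_iff_dvd (((z.1 : ℤ) - z'.1) * 3 ^ M + ∑ k : T,
      ((z.2 k : ℤ) - z'.2 k) * (2 ^ ((k.1 * 4 + i) * s + a) * 3 ^ (M - (k.1 * 4 + i + 1) * s)))
      (2 ^ M)).1 (by
        have := hz.2.trans hz'.2.symm
        simp only [nsmul_eq_mul, hh] at this
        push_cast
        simp only [sub_mul, sum_sub_distrib]
        linear_combination this)
    push_cast at this
    refine this.trans (dvd_of_eq (Eq.symm ?_))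
    rw [sum_range_succ', add_mul, add_comm]
    congr 1
    · simp only [X0, zero_tsub, zero_mul, pow_zero, mul_one, tsub_zero, mul_assoc,
        ← pow_add]
      rw [← mul_assoc m, Nat.add_sub_cancel' ms]
    · calc _ = ∑ k ∈ range m,
            d k * (2 ^ ((k * 4 + i) * s + a) * 3 ^ (M - (k * 4 + i + 1) * s)) := by
            rw [sum_blk, sum_mul]
            refine sum_congr rfl fun k hk => ?_
            rw [sum_eq_single i (fun r hr hi => by
              have := mem_range.1 hr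
              rw [X1, if_neg (by omega), zero_mul, zero_mul])
              (fun h => absurd (mem_range.2 h2) h), X1, if_pos (by omega),
              show (k * 4 + i) / 4 = k by omega, add_tsub_cancel_right]
            have := mem_range.1 hk
            obtain ⟨b, hb⟩ : ∃ b, m * 4 = k * 4 + i + 1 + b := ⟨m * 4 - (k * 4 + i + 1), by omega⟩
            rw [hb] at ms ⊢
            rw [Nat.add_sub_cancel_left, show M - (k * 4 + i + 1) * s =
              b * s + (M - (k * 4 + i + 1 + b) * s) by rw [add_mul _ b] at ms ⊢; omega]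
            ring
        _ = ∑ k ∈ T, d k * (2 ^ ((k * 4 + i) * s + a) * 3 ^ (M - (k * 4 + i + 1) * s)) :=
            (sum_subset h3 fun k _ h => by rw [d0 _ h, zero_mul]).symm
        _ = _ := by
            rw [← sum_coe_sort]
            exact sum_congr rfl fun k _ => by simp only [d, dif_pos k.2]

end Pool.Agent.Work.MP_baf0bc_nt.Zh
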