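import Pool.Agent.Work.MP_baf0bc_nt.Zh.Inj
import Pool.Agent.Work.MP_baf0bc_nt.Ne.Win

/-! Counting the seeds whose parity word lies in the 3/2-shift. -/

set_option autoImplicit false

open Finset Real Filter

namespace Pool.Agent.Work.MP_baf0bc_nt.Zh

open Pool.Agent.Work.MP_baf0bc_nt.Ne

section

variable {G : Type} [AddCommGroup G] [Fintype G] [DecidableEq G]

/-- Lower bounds for the orbit of the multiplication by 3/2 modulo one. -/
noncomputable def lb : Fin 9 → ℝ := ![0, 1 / 8, 3 / 16, 9 / 32, 27 / 64, 1 / 2, 81 / 128, 3 / 4, 1]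

theorem lb_step (s : Fin 9) : (s = 8 ∨ lb (d0 s) ≤ 2 / 3 * lb s) ∧ lb (d1 s) ≤ 2 / 3 * (1 + lb s) := by
  have e0 : d0 = ![0, 0, 1, 2, 3, 3, 4, 5, 8] := by decide
  have e1 : d1 = ![6, 7, 7, 7, 7, 8, 8, 8, 8] := by decide
  rw [e0, e1]
  fin_cases s <;> simp [lb] <;> norm_num

theorem acc {b : ℕ → ℕ} {t : ℕ → ℝ} (hb : ∀ i, b i < 2)
    (ht : ∀ i, t i < 1 ∧ t (i + 1) = 3 / 2 * t i - b i) (n : ℕ) : ∀ (s : Fin 9) (h : G),
    lb s ≤ t n → 1 ≤ (TT n s h).coeff (∑ r ∈ range n, (b r * 2 ^ r * 3 ^ (n - 1 - r)) • h) := by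
  have l8 : lb 8 = 1 := rfl
  induction n with
  | zero =>
    intro s h k
    have : s ≠ 8 := by
      rintro rfl
      linarith [(ht 0).1]
    simp [TT, this, ← e_zero, e_coeff]
  | succ n ih =>
    intro s h k
    have s8 : s ≠ 8 := by
      rintro rfl
      linarith [(ht (n + 1)).1]
    have e1 : ∑ r ∈ range n, (b r * 2 ^ r * 3 ^ (n + 1 - 1 - r)) • h =
        ∑ r ∈ range n, (b r * 2 ^ r * 3 ^ (n - 1 - r)) • 3 • h := sum_congr rfl fun r hr => by
      rw [mem_range] at hr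
      rw [smul_smul, show n + 1 - 1 - r = n - 1 - r + 1 by omega, pow_succ, mul_assoc _ _ 3]
    have h1 := (ht n).2
    rw [sum_range_succ, e1, TT, AddMonoidAlgebra.coeff_add, Finsupp.add_apply]
    simp only [add_tsub_cancel_right, Nat.sub_self, pow_zero, mul_one]
    rcases (by have := hb n; omega : b n = 0 ∨ b n = 1) with c | c <;> rw [c] at h1 ⊢
    · rw [zero_mul, zero_smul, add_zero]
      push_cast at h1
      exact le_add_of_le_of_nonneg (ih _ _ (by linarith [(lb_step s).1.resolve_left s8]))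
        ((nn_TT _ _ _).mul (pr_e _).1 _)
    · push_cast at h1
      refine le_add_of_nonneg_of_le (nn_TT _ _ _ _) (le_trans ?_ ((nn_TT _ _ _).le (pr_e _).1 _ _))
      rw [one_mul, e_coeff, if_pos rfl, mul_one]
      exact ih _ _ (by linarith [(lb_step s).2])

omit [Fintype G] in
theorem bit_le (g : G) {b : ℕ} (hb : b < 2) : 1 / 2 ≤ (dig 2 g).coeff (b • g) := by
  rw [Sh.dig_coeff]
  have := single_le_sum (f := fun d : ℕ => if d • g = b • g then (1 : ℝ) else 0)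
    (fun d _ => by split_ifs <;> norm_num) (mem_range.2 hb)
  simp only [if_true] at this
  push_cast
  linarith

theorem count (L : ℕ) (g : G) {W : A G} (hW : Nn W) {c : ℝ} (Z : Finset ℕ)
    (hZ : ∀ x ∈ Z, x < 2 ^ L ∧ c ≤ W.coeff (-(x • g))) :
    #Z * c ≤ 4 * 2 ^ L * (dig (2 ^ (L + 1)) (-g) * dig (2 ^ (L + 1)) g * W).coeff 0 := by
  rw [cm, ex_mul _ _ fun y => W.coeff (-y + 0)]
  simp only [mul_assoc, ← mul_sum, Sh.ex_dig _ g fun y => W.coeff (-(_ + y) + 0)]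
  simp only [mul_left_comm _ (1 / ((2 ^ (L + 1) : ℕ) : ℝ)), ← mul_sum]
  rw [Sh.ex_dig _ _ fun x => ∑ d ∈ range (2 ^ (L + 1)), W.coeff (-(x + d • g) + 0)]
  have h1 : ∀ u ∈ range (2 ^ L), #Z * c ≤
      ∑ d ∈ range (2 ^ (L + 1)), W.coeff (-(u • -g + d • g) + 0) := fun u hu => by
    rw [← nsmul_eq_mul]
    refine (card_nsmul_le_sum Z (fun x => W.coeff (-(u • -g + (u + x) • g) + 0)) _
      fun x hx => (hZ x hx).2.trans_eq ?_).trans ?_
    · congr 1
      rw [smul_neg, add_smul]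
      abel
    · rw [← sum_image (f := fun d => W.coeff (-(u • -g + d • g) + 0)) (g := fun x => u + x)
        fun _ _ _ _ e => Nat.add_left_cancel e]
      refine sum_le_sum_of_subset_of_nonneg (fun d hd => ?_) fun _ _ _ => hW _
      obtain ⟨x, hx, rfl⟩ := mem_image.1 hd
      have := (hZ x hx).1
      have := mem_range.1 hu
      rw [mem_range, pow_succ]
      omega
  have h2 := (card_nsmul_le_sum _ _ _ h1).trans (sum_le_sum_of_subset_of_nonneg
    (range_subset_range.2 (Nat.pow_le_pow_right two_pos (Nat.le_succ L)))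
    fun _ _ _ => sum_nonneg fun _ _ => hW _)
  rw [card_range, nsmul_eq_mul] at h2
  push_cast at h2 ⊢
  refine le_of_mul_le_mul_left (h2.trans_eq ?_) (show (0 : ℝ) < 2 ^ L by positivity)
  field_simp
  ring

omit [DecidableEq G] in
theorem two {U U' P P' Q Q' : A G} (hU : Rf U U') (hP : Rf P P') (hQ : Rf Q Q') {B : ℝ}
    (B0 : 0 ≤ B) (h1 : N2 (U * (P * P')) ≤ B) (h2 : N2 (U * (Q * Q')) ≤ B) :
    N2 (U * P * Q) ≤ B ∧ N2 (U' * P * Q) ≤ B := by
  have k1 : N2 (U' * (P * P')) ≤ B := by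
    rwa [mul_comm P, (hU.mul (hP.mul hP.symm)).n2]
  have k2 : N2 (U' * (Q * Q')) ≤ B := by
    rwa [mul_comm Q, (hU.mul (hQ.mul hQ.symm)).n2]
  have n0 : ∀ p : A G, 0 ≤ N2 p := fun p => sum_nonneg fun _ _ => sq_nonneg _
  constructor
  · refine lsq B0 ?_
    rw [((hU.mul hP).mul hQ).eq, show U * P * Q * (U' * P' * Q') =
      U * (P * P') * (U' * (Q * Q')) by ring, sq B]
    exact (cs0 _ _).trans (mul_le_mul h1 k2 (n0 _) B0)
  · refine lsq B0 ?_
    rw [((hU.symm.mul hP).mul hQ).eq, show U' * P * Q * (U * P' * Q') =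
      U * (P * P') * (U' * (Q * Q')) by ring, sq B]
    exact (cs0 _ _).trans (mul_le_mul h1 k2 (n0 _) B0)

end

theorem cls (m j : ℕ) (hm : m = 2880000) (hj : j = 1919600) {ε : ℝ} (hε : 0 < ε) :
    ∀ᶠ s : ℕ in atTop, ∀ (L M a n i : ℕ), L ≤ 2 * (m * 4) * s → i < 4 →
    (9 * 3 ^ n : ℝ) * 2 ^ a * exp (ε * s) ≤ 3 ^ s → 3 ^ (s * (j + 1)) * 2 ^ L ≤ 2 ^ M →
    (m * 4 + 4) * s ≤ M →
    N2 (dig (2 ^ L) (3 ^ M) * ∏ k ∈ range m, RR n (hh M s a (k * 4 + i))) ≤
      exp (m * (16 + n * log (143 / 25)) - L * log 2 - 1919200 * (n * log 3)) := by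
  filter_upwards [inj m hε] with s hs L M a n i h1 h2 h3 h4 h5
  have u1 : 1 ≤ 2 ^ n := Nat.one_le_two_pow
  have u2 : 2 ^ n ≤ 3 ^ n := Nat.pow_le_pow_left (by norm_num) n
  have u3 := MM_add n
  have R0 : 0 < 3 * MM n := by omega
  have R1 : ((3 * MM n : ℕ) : ℝ) ≤ 9 * 3 ^ n := by exact_mod_cast (by omega : 3 * MM n ≤ 9 * 3 ^ n)
  have R2 : n * log 3 ≤ log ((3 * MM n : ℕ) : ℝ) := by
    rw [← log_pow]
    exact log_le_log (by positivity) (by exact_mod_cast (by omega : 3 ^ n ≤ 3 * MM n))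
  have w0 : 0 ≤ n * log 3 := by positivity
  have hI := fun T hT hc => hs L M j a (3 * MM n) i T h1 h2 hT hc R0
    (le_trans (by gcongr) h3) h4 h5
  have pU := pr_dig (q := 2 ^ L) (by positivity) ((3 : ZMod (2 ^ M)) ^ M)
  have pR : ∀ k, Pos (RR n (hh M s a (k * 4 + i))) := fun k => (pos_TT _ _).mul (pos_TT _ _)
  have pZ : ∀ k, Pr (dig (3 * MM n) (hh M s a (k * 4 + i))) := fun k => pr_dig R0 _
  generalize log ((3 * MM n : ℕ) : ℝ) = w at *
  have hm' : (m : ℝ) = 2880000 := by rw [hm]; norm_num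
  have hj' : (j : ℝ) = 1919600 := by rw [hj]; norm_num
  have h := blocks _ _ pR (fun k => pos_pr (pZ k)) _ (fun k p hp => blk n _ hp)
    (-(L * log 2 + j * w)) (w / 1600) m _ 1920000 (pos_pr pU) fun T hT => by
      rcases le_total #T j with h | h
      · refine (hI T hT h).trans ?_
        rw [hj']
        linarith [mul_nonneg (w0.trans R2) (sq_nonneg ((#T : ℝ) - 1919200))]
      · obtain ⟨T', k1, k2⟩ := exists_subset_card_eq h
        have k3 := hI T' (k1.trans hT) k2.le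
        have k4 := pr_prod T' _ fun k _ => pZ k
        have k5 := pr_prod (T \ T') _ fun k _ => pZ k
        rw [← prod_sdiff k1, mul_comm (∏ _ ∈ T \ T', _), ← mul_assoc]
        have k6 := log_le_log (pos_pr ((pU.mul k4).mul k5)).n2 (n2_mono _ k5)
        rw [k2] at k3
        linarith [mul_nonneg (w0.trans R2) (sq_nonneg ((#T : ℝ) - 1920000))]
  rw [← log_le_iff_le_exp ((pos_pr pU).mul (pos_prod _ _ fun k _ => pR k)).n2]
  rw [hm', hj'] at *
  linarith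

theorem asm (m a n ρ L M : ℕ) (hM : M = m * 4 * (a + n) + ρ) {B : ℝ} (B0 : 0 ≤ B)
    (hB : ∀ i < 4, N2 (dig (2 ^ (L + 1)) (3 ^ M) *
      ∏ k ∈ range m, RR n (hh M (a + n) a (k * 4 + i))) ≤ B) (Z : Finset ℕ)
    (hZ : ∀ x ∈ Z, x < 2 ^ L ∧ ∃ t : ℕ → ℝ,
      ∀ i, 0 ≤ t i ∧ t i < 1 ∧ t (i + 1) = 3 / 2 * t i - (T^[i] x % 2 : ℕ)) :
    #Z * (((1 / 2) ^ a) ^ (m * 4) * (1 / 2) ^ ρ) ≤ 4 * 2 ^ L * B := by
  have pD : ∀ (I : Finset ℕ) (f : ℕ → ℕ), Pr (∏ r ∈ I, dig 2 (g M (f r))) := fun I f =>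
    pr_prod _ _ fun _ _ => pr_dig two_pos _
  have lD : ∀ (c : ℕ) (f : ℕ → ℕ) (x : ℕ), (1 / 2 : ℝ) ^ c ≤ (∏ r ∈ range c, dig 2 (g M (f r))).coeff
      (∑ r ∈ range c, (T^[f r] x % 2) • g M (f r)) := fun c f x => by
    have := le_prod (range c) (fun r => dig 2 (g M (f r))) (fun r => (T^[f r] x % 2) • g M (f r))
      (fun _ => 1 / 2) fun r _ => ⟨pos_pr (pr_dig two_pos _), by norm_num,
        bit_le _ (Nat.mod_lt _ two_pos)⟩
    rwa [prod_const, card_range] at this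
  have pB : ∀ k, Pos ((∏ r ∈ range a, dig 2 (g M (k * (a + n) + r))) * TT n 0 (hh M (a + n) a k)) :=
    fun k => (pos_pr (pD _ _)).mul (pos_TT _ _)
  have pW := pos_prod (range (m * 4)) _ fun k _ => pB k
  have h1 := count L ((3 : ZMod (2 ^ M)) ^ M) (pW.1.mul (pD (range ρ)
    fun r => m * 4 * (a + n) + r).1) (c := ((1 / 2) ^ a) ^ (m * 4) * (1 / 2) ^ ρ) Z fun x hx => by
      obtain ⟨t, ht⟩ := (hZ x hx).2
      refine ⟨(hZ x hx).1, ?_⟩
      have e1 : -(x • (3 : ZMod (2 ^ M)) ^ M) = ∑ i ∈ range (m * 4 * (a + n) + ρ),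
          (T^[i] x % 2) • g M i := by
        rw [← hM]
        simp only [nsmul_eq_mul]
        linear_combination -spec_mod x M
      rw [e1, sum_range_add, sum_blk]
      refine le_trans (mul_le_mul ?_ (lD ρ _ x) (by positivity) (pW.1 _)) (pW.1.le (pD _ _).1 _ _)
      refine le_trans (le_of_eq (by rw [prod_const, card_range])) (le_prod (range (m * 4)) _ _
        (fun _ => (1 / 2) ^ a) fun k hk => ⟨pB k, by positivity, ?_⟩)
      rw [sum_range_add]
      refine le_trans ?_ (Nn.le (pD _ _).1 (nn_TT _ _ _) _ _)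
      refine (lD a _ x).trans (le_mul_of_one_le_right ((pD _ _).1 _) ?_)
      have := acc (b := fun r => T^[k * (a + n) + (a + r)] x % 2)
        (t := fun r => t (k * (a + n) + (a + r))) (fun i => Nat.mod_lt _ two_pos)
        (fun i => (ht _).2) n 0 (hh M (a + n) a k) (ht _).1
      refine this.trans_eq (congrArg _ (sum_congr rfl fun r hr => ?_))
      rw [mem_range] at hk hr
      have k1 : (k + 1) * (a + n) ≤ m * 4 * (a + n) := Nat.mul_le_mul_right _ hk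
      rw [mul_assoc, mul_smul]
      congr 1
      simp only [nsmul_eq_mul, hh, g]
      rw [show M - 1 - (k * (a + n) + (a + r)) = n - 1 - r + (M - (k + 1) * (a + n)) by
        rw [add_one_mul] at k1 ⊢; omega]
      push_cast
      ring
  refine h1.trans (mul_le_mul_of_nonneg_left (lsq B0 ?_) (by positivity))
  have rP := fun i => rf_prod (range m) _ _ fun k => rf_TT n 0 (hh M (a + n) a (k * 4 + i))
  simp only [RR, prod_mul_distrib] at hB
  have t1 := (two (rf_dig _ _) (rP 0) (rP 1) B0 (hB 0 (by norm_num)) (hB 1 (by norm_num))).1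
  have t2 := (two (rf_dig _ _) (rP 2) (rP 3) B0 (hB 2 (by norm_num)) (hB 3 (by norm_num))).2
  have t3 := (n2_mono _ ((pr_prod (range (m * 4)) _ fun k _ => pD (range a)
    fun r => k * (a + n) + r).mul (pD (range ρ) fun r => m * 4 * (a + n) + r))).trans t2
  have t4 := (cs0 _ _).trans (mul_le_mul t1 t3 (sum_nonneg fun _ _ => sq_nonneg _) B0)
  rw [sq B]
  refine le_trans (le_of_eq ?_) t4
  rw [prod_mul_distrib, prod_blk (fun k => TT n 0 (hh M (a + n) a k))]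
  simp only [prod_range_succ, prod_range_zero, one_mul, prod_mul_distrib]
  refine congrArg (fun p : A _ => p.coeff 0 ^ 2) ?_
  ring

theorem seeds : ∃ (l : ℕ) (C : ℝ), 0 < l ∧ ∀ᶠ u : ℕ in atTop, ∀ Z : Finset ℕ,
    (∀ x ∈ Z, 2 * x < 2 ^ (l * u) ∧ ∃ t : ℕ → ℝ,
      ∀ i, 0 ≤ t i ∧ t i < 1 ∧ t (i + 1) = 3 / 2 * t i - (T^[i] x % 2 : ℕ)) →
    (#Z : ℝ) ≤ exp (C + 2481 / 5000 * log 2 * (l * u)) := by
  obtain ⟨m, hm⟩ : ∃ m : ℕ, m = 2880000 := ⟨_, rfl⟩
  obtain ⟨j, hj⟩ : ∃ j : ℕ, j = 1919600 := ⟨_, rfl⟩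
  obtain ⟨l, hl⟩ : ∃ l : ℕ, l = 51882294780 := ⟨_, rfl⟩
  refine ⟨l, 16 * m + 1, by omega, ?_⟩
  filter_upwards [(tendsto_id.const_mul_atTop' (by norm_num : 0 < 6120)).eventually
    (cls m j hm hj (ε := 1 / 24480) (by norm_num)), eventually_ge_atTop 64] with u hs u1 Z hZ
  obtain ⟨L, hL⟩ : ∃ L, l * u = L + 1 := ⟨l * u - 1, by subst hl; omega⟩
  obtain ⟨M, hM⟩ : ∃ M, M = m * 4 * (u + 6119 * u) + 4 * (u + 6119 * u) := ⟨_, rfl⟩
  rw [id, show 6120 * u = u + 6119 * u by ring] at hs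
  have u2 : (64 : ℝ) ≤ u := by exact_mod_cast u1
  have c1 : (9 * 3 ^ (6119 * u) : ℝ) * 2 ^ u * exp (1 / 24480 * (u + 6119 * u : ℕ)) ≤
      3 ^ (u + 6119 * u) := by
    have e1 : exp (1 / 4) ≤ 4 / 3 := by
      have := add_one_le_exp (-(1 / 4) : ℝ)
      rw [exp_neg, le_inv_comm₀ (by norm_num) (exp_pos _)] at this
      linarith
    have e2 := one_add_mul_le_pow (a := (1 / 8 : ℝ)) (by norm_num) u
    rw [show 1 / 24480 * ((u + 6119 * u : ℕ) : ℝ) = u * (1 / 4) by push_cast; ring, exp_nat_mul]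
    calc _ ≤ (1 + 1 / 8 : ℝ) ^ u * 3 ^ (6119 * u) * 2 ^ u * (4 / 3) ^ u := by gcongr; linarith
      _ = ((1 + 1 / 8) * 2 * (4 / 3)) ^ u * 3 ^ (6119 * u) := by rw [mul_pow, mul_pow]; ring
      _ = _ := by rw [pow_add]; norm_num
  have c2 : 3 ^ ((u + 6119 * u) * (j + 1)) * 2 ^ (L + 1) ≤ 2 ^ M := by
    calc _ = (3 ^ 306) ^ (20 * u * (j + 1)) * 2 ^ (L + 1) := by rw [← pow_mul]; congr 2; ring
      _ ≤ (2 ^ 485) ^ (20 * u * (j + 1)) * 2 ^ (L + 1) :=
          Nat.mul_le_mul_right _ (Nat.pow_le_pow_left (by decide +kernel) _)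
      _ = _ := by
          rw [← pow_mul, ← pow_add, ← hL, hM, hm, hj, hl]
          congr 1
          ring
  have h := asm m u (6119 * u) _ L M hM (exp_pos _).le (fun i hi => hs (L + 1) M u (6119 * u) i
    (by rw [← hL, hl, hm]; omega) hi c1 c2 (by rw [hM, add_mul])) Z fun x hx =>
      ⟨by have := (hZ x hx).1; rw [hL, pow_succ] at this; omega, (hZ x hx).2⟩
  have l2 : 0 < log 2 := log_pos one_lt_two
  have l3 : 1054 * log 2 ≤ 665 * log 3 := by
    have : ((2 ^ 1054 : ℕ) : ℝ) ≤ (3 ^ 665 : ℕ) := Nat.cast_le.2 (by decide +kernel)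
    have := log_le_log (Nat.cast_pos.2 (by positivity)) this
    rwa [Nat.cast_pow, Nat.cast_pow, log_pow, log_pow] at this
  have l4 : 31 * log (143 / 25) ≤ 78 * log 2 := by
    have := log_le_log (x := (143 / 25) ^ 31) (y := 2 ^ 78) (by positivity) (by norm_num)
    rwa [log_pow, log_pow] at this
  have e2 : ∀ k : ℕ, (2 : ℝ) ^ k = exp (k * log 2) := fun k => by
    rw [exp_nat_mul, exp_log two_pos]
  rw [← pow_mul, ← pow_add, one_div_pow, mul_one_div, div_le_iff₀ (by positivity),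
    show (4 : ℝ) = 2 ^ 2 by norm_num, e2, e2, e2, ← exp_add, ← exp_add, ← exp_add] at h
  refine h.trans (exp_le_exp.2 ?_)
  have hm' : (m : ℝ) = 2880000 := by rw [hm]; norm_num
  have hl' : (l : ℝ) = 51882294780 := by rw [hl]; norm_num
  push_cast
  rw [hm', hl']
  have u0 : (0 : ℝ) ≤ u := Nat.cast_nonneg u
  linarith [mul_le_mul_of_nonneg_left l3 u0, mul_le_mul_of_nonneg_left l4 u0,
    mul_nonneg u0 l2.le, log_two_lt_d9]

end Pool.Agent.Work.MP_baf0bc_nt.Zh
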