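import Pool.Agent.Work.MP_baf0bc_nt.Zh.Cert
import Pool.Agent.Work.MP_baf0bc_nt.Ne.Ent

/-! Peeling of ternary digits for quadruples of accepted words. -/

set_option autoImplicit false

open Finset Real

namespace Pool.Agent.Work.MP_baf0bc_nt.Zh

open Pool.Agent.Work.MP_baf0bc_nt.Ne

variable {G : Type} [AddCommGroup G] [Fintype G] [DecidableEq G]

noncomputable def TT : ℕ → Fin 9 → G → A G
  | 0, s, _ => if s = 8 then 0 else 1
  | n + 1, s, h => TT n (d0 s) (3 • h) + TT n (d1 s) (3 • h) * e (2 ^ n • h)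

noncomputable def TC : ℕ → Fin 9 → G → A G
  | 0, s, _ => if s = 8 then 0 else 1
  | n + 1, s, h => TC n (d0 s) (3 • h) * e (2 ^ n • h) + TC n (d1 s) (3 • h)

noncomputable def P4 (n : ℕ) (h : G) (σ : St) : A G :=
  TT n σ.1 h * TT n σ.2.1 h * TC n σ.2.2.1 h * TC n σ.2.2.2 h

noncomputable def ev (p : A G) (f : G → ℝ) : ℝ := ∑ w, p.coeff w * f w

omit [Fintype G] [DecidableEq G] in
theorem e_mul (k m : ℕ) (g : G) : e ((k * m) • g) = e (m • g) ^ k := by
  induction k with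
  | zero => simp [e_zero]
  | succ k ih => rw [add_one_mul, add_smul, e_add, ih, pow_succ]

omit [Fintype G] [DecidableEq G] in
theorem P4_succ (n : ℕ) (h : G) (σ : St) :
    P4 (n + 1) h σ = ∑ k ∈ range 5, sm k (P4 n (3 • h)) σ * e ((k * 2 ^ n) • h) := by
  obtain ⟨a, b, c, d⟩ := σ
  simp only [sum_range_succ, sum_range_zero, sm, LL, P4, TT, TC, List.map, List.sum_cons,
    List.sum_nil, e_mul]
  ring

omit [DecidableEq G] in
theorem ev_add (p q : A G) (f : G → ℝ) : ev (p + q) f = ev p f + ev q f := by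
  simp [ev, add_mul, sum_add_distrib]

omit [DecidableEq G] in
theorem ev_zero (f : G → ℝ) : ev 0 f = 0 := by simp [ev]

omit [AddCommGroup G] in
theorem ev_e (g : G) (f : G → ℝ) : ev (e g) f = f g := by simp [ev, e_coeff]

theorem ev_sh (p : A G) (g : G) (f : G → ℝ) : ev (p * e g) f = ev p fun w => f (w + g) := by
  simp [ev, ex_mul, e_coeff]

def MM : ℕ → ℕ
  | 0 => 1
  | n + 1 => 3 * MM n + 2 * 2 ^ n

theorem MM_add (n : ℕ) : MM n + 2 * 2 ^ n = 3 * 3 ^ n := by
  induction n with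
  | zero => rfl
  | succ n ih => rw [MM, pow_succ, pow_succ]; omega

theorem sum3 (F : ℕ → ℝ) (N : ℕ) : ∑ x ∈ range (3 * N), F x
    = ∑ x ∈ range N, F (3 * x + 0) + ∑ x ∈ range N, F (3 * x + 1) + ∑ x ∈ range N, F (3 * x + 2) := by
  induction N with
  | zero => simp
  | succ N ih =>
    rw [show 3 * (N + 1) = 3 * N + 1 + 1 + 1 by ring]
    simp only [sum_range_succ, ih, add_zero]
    ring

theorem shift {F : ℕ → ℝ} (hF : ∀ t, 0 ≤ F t) {e R M : ℕ} (h : e / 3 + R ≤ M) :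
    ∑ t ∈ range R, F (e + 3 * t) ≤ ∑ t ∈ range M, F (3 * t + e % 3) := by
  calc ∑ t ∈ range R, F (e + 3 * t) = ∑ t ∈ range R, F (3 * (e / 3 + t) + e % 3) :=
        sum_congr rfl fun t _ => by congr 1; omega
    _ = ∑ t ∈ Ico (e / 3) (e / 3 + R), F (3 * t + e % 3) := by
        rw [sum_Ico_eq_sum_range, Nat.add_sub_cancel_left]
    _ ≤ _ := sum_le_sum_of_subset_of_nonneg
        (fun t ht => by simp only [mem_Ico, mem_range] at ht ⊢; omega) fun t _ _ => hF _

theorem root6 {S N : ℝ} (hS : 0 ≤ S) (hN : 0 < N) : ∃ A, 0 ≤ A ∧ S = N * A ^ 6 :=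
  ⟨(S / N) ^ ((6 : ℕ)⁻¹ : ℝ), by positivity, by
    rw [rpow_inv_natCast_pow (by positivity) (by norm_num)]; field_simp⟩

theorem peel (n : ℕ) : ∀ (h : G) (σ : St) (φ : ℕ → ℝ) (ψ : G → ℝ) (A B : ℝ), (∀ x, 0 ≤ φ x) →
    (∀ g, 0 ≤ ψ g) → 0 ≤ A → 0 ≤ B → ∑ x ∈ range (3 ^ n), φ x ^ 6 ≤ 3 ^ n * A ^ 6 →
    ∑ t ∈ range (3 * MM n), ψ (t • h) ^ 6 ≤ 3 ^ n * B ^ 6 →
    ∑ x ∈ range (3 ^ n), φ x ^ 5 * ev (P4 n h σ) (fun w => ψ (x • h + w) ^ 5) ≤
      3 ^ n * (143 / 25) ^ n * A ^ 5 * B ^ 5 * uu σ := by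
  induction n with
  | zero =>
    intro h ⟨a, b, c, d⟩ φ ψ A B hφ hψ hA hB h1 h2
    simp only [MM, mul_one, pow_zero, one_mul, sum_range_one] at h1 h2 ⊢
    simp only [sum_range_succ, sum_range_zero, zero_add, zero_smul] at h2 ⊢
    have k1 : φ 0 ≤ A := le_of_pow_le_pow_left₀ (n := 6) (by norm_num) hA h1
    have k2 : ψ 0 ≤ B := le_of_pow_le_pow_left₀ (n := 6) (by norm_num) hB
      (by linarith [pow_nonneg (hψ (1 • h)) 6, pow_nonneg (hψ (2 • h)) 6])
    have u := uu_pos a b c d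
    generalize uu (a, b, c, d) = v at *
    have z : 0 ≤ A ^ 5 * B ^ 5 * (v : ℝ) := by positivity
    simp only [P4, TT, TC]
    split_ifs with c1 c2 c3 c4 <;>
      try simpa only [mul_zero, zero_mul, ev_zero] using z
    have v1 : (1 : ℝ) ≤ v := by exact_mod_cast (by tauto : 1 ≤ v)
    simp only [mul_one]
    rw [← e_zero, ev_e]
    have := hφ 0
    have := hψ 0
    calc _ ≤ A ^ 5 * B ^ 5 := by gcongr
      _ ≤ _ := le_mul_of_one_le_right (by positivity) v1
  | succ n ih =>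
    intro h σ φ ψ A B hφ hψ hA hB h1 h2
    have N0 : (0 : ℝ) < 3 ^ n := by positivity
    choose α α0 hα using fun d : ℕ => root6 (S := ∑ x ∈ range (3 ^ n), φ (3 * x + d) ^ 6)
      (sum_nonneg fun x _ => pow_nonneg (hφ _) 6) N0
    choose β β0 hβ using fun d : ℕ => root6
      (S := ∑ t ∈ range (MM (n + 1)), ψ ((3 * t + d) • h) ^ 6)
      (sum_nonneg fun x _ => pow_nonneg (hψ _) 6) N0
    rw [pow_succ, mul_comm (3 ^ n) 3, sum3] at h1 ⊢
    rw [sum3 fun t => ψ (t • h) ^ 6, hβ, hβ, hβ, pow_succ (3 : ℝ)] at h2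
    rw [hα, hα, hα, pow_succ (3 : ℝ)] at h1
    have a6 : α 0 ^ 6 + α 1 ^ 6 + α 2 ^ 6 ≤ 3 * A ^ 6 := le_of_mul_le_mul_left (by linarith) N0
    have b6 : β 0 ^ 6 + β 1 ^ 6 + β 2 ^ 6 ≤ 3 * B ^ 6 := le_of_mul_le_mul_left (by linarith) N0
    have u1 : 1 ≤ 2 ^ n := Nat.one_le_two_pow
    have key : ∀ d k : ℕ, d < 3 → k < 5 → ∑ x ∈ range (3 ^ n), φ (3 * x + d) ^ 5 *
        ev (sm k (P4 n (3 • h)) σ * e ((k * 2 ^ n) • h)) (fun w => ψ ((3 * x + d) • h + w) ^ 5) ≤
        3 ^ n * (143 / 25) ^ n * α d ^ 5 * β ((d + k * 2 ^ n) % 3) ^ 5 * (sm k uu σ : ℕ) := by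
      intro d k hd hk
      have k4 : k * 2 ^ n ≤ 4 * 2 ^ n := Nat.mul_le_mul_right _ (by omega)
      have one := fun τ => ih (3 • h) τ (fun x => φ (3 * x + d))
        (fun g => ψ (g + (d + k * 2 ^ n) • h)) (α d) (β ((d + k * 2 ^ n) % 3)) (fun x => hφ _)
        (fun g => hψ _) (α0 _) (β0 _) (hα d).le (by
          rw [← hβ]
          refine le_trans (le_of_eq (sum_congr rfl fun t _ => ?_)) (shift
            (F := fun t => ψ (t • h) ^ 6) (fun t => pow_nonneg (hψ _) 6) (e := d + k * 2 ^ n)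
            (R := 3 * MM n) (by rw [MM]; omega))
          rw [smul_smul, ← add_smul, add_comm, mul_comm t])
      have rw1 : ∀ x : ℕ, (fun w => ψ ((3 * x + d) • h + (w + (k * 2 ^ n) • h)) ^ 5) =
          fun w => ψ (x • 3 • h + w + (d + k * 2 ^ n) • h) ^ 5 := fun x => funext fun w => by
        congr 2
        rw [smul_smul, mul_comm x, add_smul, add_smul]
        abel
      simp only [ev_sh, rw1]
      unfold sm
      induction LL k σ with
      | nil => simp [ev_zero]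
      | cons a l il =>
        simp only [List.map_cons, List.sum_cons, ev_add, mul_add, sum_add_distrib, Nat.cast_add]
        linarith [one a]
    obtain ⟨a, b, c, ha, hb, hc, hK⟩ := cert σ
    have a0 : 0 ≤ a := by rw [ha]; positivity
    have b0 : 0 ≤ b := by rw [hb]; positivity
    have c0 : 0 ≤ c := by rw [hc]; positivity
    have hu : 2 ^ n % 3 = 1 ∨ 2 ^ n % 3 = 2 := by
      have : ¬ 3 ∣ 2 ^ n := fun h => by
        have := Nat.prime_three.dvd_of_dvd_pow h
        omega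
      omega
    have md : ∀ d k, (d + k * 2 ^ n) % 3 = (d + k * (2 ^ n % 3)) % 3 := fun d k => by
      simp [Nat.add_mod, Nat.mul_mod]
    have C0 : (0 : ℝ) ≤ 3 ^ n * (143 / 25) ^ n := by positivity
    simp only [P4_succ, sum_range_succ, sum_range_zero, zero_add, ev_add, mul_add, sum_add_distrib]
    simp only [md] at key
    have k00 := key 0 0 (by omega) (by omega)
    have k01 := key 0 1 (by omega) (by omega)
    have k02 := key 0 2 (by omega) (by omega)
    have k03 := key 0 3 (by omega) (by omega)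
    have k04 := key 0 4 (by omega) (by omega)
    have k10 := key 1 0 (by omega) (by omega)
    have k11 := key 1 1 (by omega) (by omega)
    have k12 := key 1 2 (by omega) (by omega)
    have k13 := key 1 3 (by omega) (by omega)
    have k14 := key 1 4 (by omega) (by omega)
    have k20 := key 2 0 (by omega) (by omega)
    have k21 := key 2 1 (by omega) (by omega)
    have k22 := key 2 2 (by omega) (by omega)
    have k23 := key 2 3 (by omega) (by omega)
    have k24 := key 2 4 (by omega) (by omega)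
    clear key ih
    rcases hu with hu | hu
    · have t := mul_le_mul_of_nonneg_left (three a0 b0 c0 hK (α0 0) (α0 1) (α0 2) hA a6 (β0 0) (β0 1)
        (β0 2) hB b6) C0
      rw [hu] at k00 k01 k02 k03 k04 k10 k11 k12 k13 k14 k20 k21 k22 k23 k24
      norm_num only at k00 k01 k02 k03 k04 k10 k11 k12 k13 k14 k20 k21 k22 k23 k24
      rw [ha, hb, hc] at t
      rw [pow_succ (3 : ℝ), pow_succ (143 / 25 : ℝ)]
      linarith only [t, k00, k01, k02, k03, k04, k10, k11, k12, k13, k14, k20, k21, k22, k23, k24]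
    · have t := mul_le_mul_of_nonneg_left (three a0 b0 c0 hK (α0 0) (α0 2) (α0 1) hA (by linarith)
        (β0 0) (β0 2) (β0 1) hB (by linarith)) C0
      rw [hu] at k00 k01 k02 k03 k04 k10 k11 k12 k13 k14 k20 k21 k22 k23 k24
      norm_num only at k00 k01 k02 k03 k04 k10 k11 k12 k13 k14 k20 k21 k22 k23 k24
      rw [ha, hb, hc] at t
      rw [pow_succ (3 : ℝ), pow_succ (143 / 25 : ℝ)]
      linarith only [t, k00, k01, k02, k03, k04, k10, k11, k12, k13, k14, k20, k21, k22, k23, k24]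

end Pool.Agent.Work.MP_baf0bc_nt.Zh
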